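import Mathlib

/-!
# Graph bootstrap percolation: definitions, and cliques with pendant edges

`copies`, `step`, `tau`, `M`, `plus` are the definitions of problem MP_7332c2_co; `IsCliquePendants`
describes the complete graph `K_k` with `m` pendant edges attached at one of its vertices.
-/

set_option autoImplicit false

namespace Pool.Agent.H6.GB

open Finset

/-- Copies of `H` in `G`: the subgraphs of `G` isomorphic to `H`, each recorded as the pair
(vertex set, edge set). -/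
def copies {V W : Type} (H : SimpleGraph V) (G : SimpleGraph W) : Set (Set W × Set (Sym2 W)) :=
  {p | ∃ f : V ↪ W, (∀ a b, H.Adj a b → G.Adj (f a) (f b)) ∧
    p = (Set.range f, Sym2.map f '' H.edgeSet)}

/-- One round of the `H`-process: all edges `e` are added for which `G + e` has more copies of `H`
than `G`. -/
def step {V W : Type} (H : SimpleGraph V) (G : SimpleGraph W) : SimpleGraph W :=
  G ⊔ SimpleGraph.fromEdgeSet
    {e | (copies H G).ncard < (copies H (G ⊔ SimpleGraph.fromEdgeSet {e})).ncard}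

/-- Running time `τ_H(G)` of the `H`-process on `G`. -/
noncomputable def tau {V W : Type} (H : SimpleGraph V) (G : SimpleGraph W) : ℕ :=
  sInf {t | (step H)^[t] G = (step H)^[t + 1] G}

/-- Maximum running time `M_H(n)` over all graphs on `n` vertices. -/
noncomputable def M {V : Type} (H : SimpleGraph V) (n : ℕ) : ℕ :=
  ⨆ G : SimpleGraph (Fin n), tau H G

/-- `H^{u+}`: the graph `H` with one new vertex `none`, joined only to `u`. -/
def plus {V : Type} (H : SimpleGraph V) (u : V) : SimpleGraph (Option V) :=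
  H.map Function.Embedding.some ⊔ SimpleGraph.fromEdgeSet {s(none, some u)}

/-- `H` is the complete graph on the set `K` (`|K| = k`) with `m` pendant edges attached at the vertex
`u` of `K`. -/
def Str (k m : ℕ) {V : Type} [Fintype V] (H : SimpleGraph V) (u : V) (K : Finset V) : Prop :=
  u ∈ K ∧ K.card = k ∧ Fintype.card V = k + m ∧
    ∀ a b, H.Adj a b ↔ a ≠ b ∧ (a = u ∨ b = u ∨ (a ∈ K ∧ b ∈ K))

theorem step_adj {V W : Type} [Finite W] (H : SimpleGraph V) (G : SimpleGraph W) (a b : W) :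
    (step H G).Adj a b ↔ G.Adj a b ∨ (a ≠ b ∧ ∃ f : V ↪ W,
      (∀ x y, H.Adj x y → G.Adj (f x) (f y) ∨ s(f x, f y) = s(a, b)) ∧
      ∃ x y, H.Adj x y ∧ f x = a ∧ f y = b) := by
  simp only [step, SimpleGraph.sup_adj, SimpleGraph.fromEdgeSet_adj, Set.mem_ofPred_eq]
  have hsub : copies H G ⊆ copies H (G ⊔ SimpleGraph.fromEdgeSet {s(a, b)}) := by
    rintro _ ⟨f, hf, rfl⟩
    exact ⟨f, fun x y h => Or.inl (hf x y h), rfl⟩
  by_cases hab : G.Adj a b
  · simp [hab]
  simp only [hab, false_or]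
  constructor
  · rintro ⟨h1, h2⟩
    refine ⟨h2, ?_⟩
    obtain ⟨p, ⟨f, hf, rfl⟩, hp⟩ := Set.exists_mem_notMem_of_ncard_lt_ncard h1 (Set.toFinite _)
    refine ⟨f, fun x y h => (hf x y h).imp_right fun h => h.1, ?_⟩
    by_contra hn
    refine hp ⟨f, fun x y h => (hf x y h).resolve_right fun h' => hn ?_, rfl⟩
    rcases Sym2.eq_iff.1 h'.1 with ⟨h3, h4⟩ | ⟨h3, h4⟩
    · exact ⟨x, y, h, h3, h4⟩
    · exact ⟨y, x, h.symm, h4, h3⟩
  · rintro ⟨h1, f, hf, x, y, hxy, rfl, rfl⟩
    refine ⟨Set.ncard_lt_ncard (Set.ssubset_iff_subset_ne.2 ⟨hsub, fun he => ?_⟩)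
      (Set.toFinite _), h1⟩
    have : (Set.range f, Sym2.map f '' H.edgeSet) ∈ copies H G := by
      rw [he]
      exact ⟨f, fun x y h => (hf x y h).imp_right fun h' => ⟨h', f.injective.ne h.ne⟩, rfl⟩
    obtain ⟨g, hg, h2⟩ := this
    have h3 : s(f x, f y) ∈ Sym2.map g '' H.edgeSet := by
      have h5 : Sym2.map f '' H.edgeSet = Sym2.map g '' H.edgeSet := congrArg Prod.snd h2
      rw [← h5]
      exact ⟨s(x, y), hxy, rfl⟩
    obtain ⟨e, he1, he2⟩ := h3
    induction e using Sym2.ind with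
    | _ z w =>
      have h4 : s(g z, g w) ∈ G.edgeSet := hg z w he1
      rw [show s(g z, g w) = s(f x, f y) from he2] at h4
      exact hab h4

theorem Str.plus {k m : ℕ} {V : Type} [Fintype V] {H : SimpleGraph V} {u : V} {K : Finset V}
    (h : Str k m H u K) : Str k (m + 1) (plus H u) (some u) (K.map Function.Embedding.some) := by
  refine ⟨by simpa using h.1, by simpa using h.2.1, ?_, fun a b => ?_⟩
  · rw [Fintype.card_option, h.2.2.1]; omega
  rw [GB.plus, SimpleGraph.sup_adj, SimpleGraph.map_adj, SimpleGraph.fromEdgeSet_adj]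
  cases a <;> cases b <;> simp [h.2.2.2, eq_comm]

theorem Str.conn {k m : ℕ} {V : Type} [Fintype V] {H : SimpleGraph V} {u : V} {K : Finset V}
    (h : Str k m H u K) : H.Connected := by
  have hr : ∀ a, H.Reachable a u := fun a => by
    by_cases ha : a = u
    · rw [ha]
    · exact ((h.2.2.2 a u).2 ⟨ha, Or.inr (Or.inl rfl)⟩).reachable
  have : Nonempty V := ⟨u⟩
  exact ⟨fun a b => (hr a).trans (hr b).symm⟩

section

variable {k m : ℕ} {V W : Type} [Fintype V] {H : SimpleGraph V} {u : V} {K : Finset V}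

theorem build [DecidableEq W] (h : Str k m H u K) {Q R : Finset W} {q : W} (hq : q ∈ Q)
    (hQ : Q.card = k) (hR : R.card = m) (hQR : Disjoint Q R) :
    ∃ f : V ↪ W, (∀ x y, H.Adj x y → f x ≠ f y ∧
      ((f x ∈ Q ∧ f y ∈ Q) ∨ (f x = q ∧ f y ∈ R) ∨ (f y = q ∧ f x ∈ R))) ∧
      ∀ a b, a ≠ b → (a ∈ Q ∧ b ∈ Q) ∨ (a = q ∧ b ∈ R) → ∃ x y, H.Adj x y ∧ f x = a ∧ f y = b := by
  classical
  obtain ⟨hu, hK, hV, hA⟩ := h
  let e1 : (K.erase u) ≃ (Q.erase q) := equivOfCardEq (by
    rw [card_erase_of_mem hu, card_erase_of_mem hq, hK, hQ])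
  let e2 : (Kᶜ : Finset V) ≃ R := equivOfCardEq (by rw [card_compl, hK]; omega)
  let f : V → W := fun v => if h1 : v ∈ K then (if h2 : v = u then q else
    e1 ⟨v, mem_erase.2 ⟨h2, h1⟩⟩) else e2 ⟨v, mem_compl.2 h1⟩
  have f1 : f u = q := by simp [f, hu]
  have f2 : ∀ v (h1 : v ∈ K) (h2 : v ≠ u), f v = e1 ⟨v, mem_erase.2 ⟨h2, h1⟩⟩ := by
    intro v h1 h2; simp [f, h1, h2]
  have f3 : ∀ v (h1 : v ∉ K), f v = e2 ⟨v, mem_compl.2 h1⟩ := by
    intro v h1; simp [f, h1]
  have g2 : ∀ v, v ∈ K → v ≠ u → f v ∈ Q.erase q := fun v h1 h2 => by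
    rw [f2 v h1 h2]; exact (e1 _).2
  have g1 : ∀ v, v ∈ K → f v ∈ Q := fun v h1 => by
    by_cases h2 : v = u
    · rw [h2, f1]; exact hq
    · exact mem_of_mem_erase (g2 v h1 h2)
  have g3 : ∀ v, v ∉ K → f v ∈ R := fun v h1 => by rw [f3 v h1]; exact (e2 _).2
  have hinj : Function.Injective f := by
    intro v w hvw
    by_cases h1 : v ∈ K <;> by_cases h2 : w ∈ K
    · by_cases h3 : v = u <;> by_cases h4 : w = u
      · rw [h3, h4]
      · exact absurd (hvw.symm.trans (h3 ▸ f1)) (ne_of_mem_erase (g2 w h2 h4))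
      · exact absurd (hvw.trans (h4 ▸ f1)) (ne_of_mem_erase (g2 v h1 h3))
      · rw [f2 v h1 h3, f2 w h2 h4] at hvw
        exact congrArg Subtype.val (e1.injective (Subtype.ext hvw))
    · exact absurd (hvw ▸ g1 v h1) (disjoint_right.1 hQR (g3 w h2))
    · exact absurd (hvw ▸ g3 v h1) (disjoint_left.1 hQR (g1 w h2))
    · rw [f3 v h1, f3 w h2] at hvw
      exact congrArg Subtype.val (e2.injective (Subtype.ext hvw))
  have s1 : ∀ a ∈ Q, ∃ x ∈ K, f x = a := fun a ha => by
    by_cases h2 : a = q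
    · exact ⟨u, hu, f1.trans h2.symm⟩
    · obtain ⟨⟨x, hx⟩, h3⟩ := e1.surjective ⟨a, mem_erase.2 ⟨h2, ha⟩⟩
      exact ⟨x, mem_of_mem_erase hx, by
        rw [f2 x (mem_of_mem_erase hx) (ne_of_mem_erase hx), h3]⟩
  have s2 : ∀ a ∈ R, ∃ x, f x = a := fun a ha => by
    obtain ⟨⟨x, hx⟩, h3⟩ := e2.surjective ⟨a, ha⟩
    exact ⟨x, by rw [f3 x (mem_compl.1 hx), h3]⟩
  refine ⟨⟨f, hinj⟩, fun x y hxy => ⟨hinj.ne hxy.ne, ?_⟩, fun a b hab h => ?_⟩
  · simp only [Function.Embedding.coeFn_mk]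
    obtain ⟨-, rfl | rfl | ⟨h1, h2⟩⟩ := (hA x y).1 hxy
    · by_cases h2 : y ∈ K
      · exact Or.inl ⟨g1 _ hu, g1 _ h2⟩
      · exact Or.inr (Or.inl ⟨f1, g3 _ h2⟩)
    · by_cases h2 : x ∈ K
      · exact Or.inl ⟨g1 _ h2, g1 _ hu⟩
      · exact Or.inr (Or.inr ⟨f1, g3 _ h2⟩)
    · exact Or.inl ⟨g1 _ h1, g1 _ h2⟩
  · rcases h with ⟨h1, h2⟩ | ⟨rfl, h2⟩
    · obtain ⟨x, hx, rfl⟩ := s1 a h1
      obtain ⟨y, hy, rfl⟩ := s1 b h2
      exact ⟨x, y, (hA x y).2 ⟨fun h => hab (congrArg f h), Or.inr (Or.inr ⟨hx, hy⟩)⟩, rfl, rfl⟩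
    · obtain ⟨y, rfl⟩ := s2 b h2
      exact ⟨u, y, (hA u y).2 ⟨fun h => hab (by rw [← h, f1]), Or.inl rfl⟩, f1, rfl⟩

theorem add_edge [Finite W] [DecidableEq W] (h : Str k m H u K) {G : SimpleGraph W}
    {Q R : Finset W} {q a b : W} (hq : q ∈ Q)
    (hQ : Q.card = k) (hR : R.card = m) (hQR : Disjoint Q R) (hab : a ≠ b)
    (h1 : (a ∈ Q ∧ b ∈ Q) ∨ (a = q ∧ b ∈ R))
    (h2 : ∀ x ∈ Q, ∀ y ∈ Q, x ≠ y → G.Adj x y ∨ s(x, y) = s(a, b))
    (h3 : ∀ y ∈ R, G.Adj q y ∨ s(q, y) = s(a, b)) : (step H G).Adj a b := by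
  obtain ⟨f, hf, hf2⟩ := build h hq hQ hR hQR
  refine (step_adj H G a b).2 (Or.inr ⟨hab, f, fun x y hxy => ?_, hf2 a b hab h1⟩)
  obtain ⟨h4, ⟨h5, h6⟩ | ⟨h5, h6⟩ | ⟨h5, h6⟩⟩ := hf x y hxy
  · exact h2 _ h5 _ h6 h4
  · rw [h5]; exact h3 _ h6
  · rw [h5, G.adj_comm, Sym2.eq_swap]; exact h3 _ h6

theorem le_step {V W : Type} (H : SimpleGraph V) (G : SimpleGraph W) : G ≤ step H G := le_sup_left

/-- `v` is adjacent to all other vertices. -/
def Full (G : SimpleGraph W) (v : W) : Prop := ∀ w, w ≠ v → G.Adj v w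

/-- `C` is a clique. -/
def Cl (G : SimpleGraph W) (C : Finset W) : Prop := ∀ x ∈ C, ∀ y ∈ C, x ≠ y → G.Adj x y

theorem Full.mono {G G' : SimpleGraph W} (h : G ≤ G') {v : W} (hv : Full G v) : Full G' v :=
  fun w hw => h (hv w hw)

theorem Cl.mono {G G' : SimpleGraph W} (h : G ≤ G') {C : Finset W} (hv : Cl G C) : Cl G' C :=
  fun x hx y hy hxy => h (hv x hx y hy hxy)

open Classical in
/-- the degree -/
noncomputable def dg [Fintype W] (G : SimpleGraph W) (v : W) : ℕ := (univ.filter (G.Adj v)).card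

theorem dg_mono [Fintype W] {G G' : SimpleGraph W} (h : G ≤ G') (v : W) : dg G v ≤ dg G' v := by
  classical
  unfold dg
  exact card_le_card (fun w hw => by
    simp only [mem_filter, mem_univ, true_and] at hw ⊢
    exact h hw)

theorem le_dg [Fintype W] {G : SimpleGraph W} {v : W} {S : Finset W}
    (h : ∀ w ∈ S, G.Adj v w) : S.card ≤ dg G v := by
  classical
  unfold dg
  exact card_le_card (fun w hw => by
    simp only [mem_filter, mem_univ, true_and]
    exact h w hw)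

/-- A vertex of a `k`-clique whose degree is at least `k + m - 2` is adjacent to all vertices after
one more round. -/
theorem full_next [Fintype W] (h : Str k m H u K) (hm : 1 ≤ m) {G : SimpleGraph W} {Q : Finset W}
    (hQ : Q.card = k) (hcl : Cl G Q) {a : W} (ha : a ∈ Q) (hdeg : k + m ≤ dg G a + 2) :
    Full (step H G) a := by
  classical
  intro w hw
  by_cases haw : G.Adj a w
  · exact le_step _ _ haw
  have hwQ : w ∉ Q := fun h' => haw (hcl a ha w h' hw.symm)
  have h1 : m - 1 ≤ ((univ.filter (G.Adj a)) \ Q).card := by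
    have h2 : ((univ.filter (G.Adj a)) ∩ Q).card ≤ k - 1 := by
      rw [← hQ, ← card_erase_of_mem ha]
      refine card_le_card fun z hz => ?_
      simp only [mem_inter, mem_filter, mem_univ, true_and] at hz
      exact mem_erase.2 ⟨hz.1.ne', hz.2⟩
    have h3 := card_sdiff_add_card_inter (univ.filter (G.Adj a)) Q
    have h4 : dg G a = (univ.filter (G.Adj a)).card := rfl
    have h5 : 1 ≤ k := by rw [← hQ]; exact card_pos.2 ⟨a, ha⟩
    omega
  obtain ⟨R0, hR0, hR1⟩ := exists_subset_card_eq h1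
  have hwR : w ∉ R0 := fun h' => by
    have := hR0 h'
    simp only [mem_sdiff, mem_filter, mem_univ, true_and] at this
    exact haw this.1
  refine add_edge h (Q := Q) (R := insert w R0) (q := a) ha hQ
    (by rw [card_insert_of_notMem hwR, hR1]; omega) ?_ hw.symm (Or.inr ⟨rfl, mem_insert_self _ _⟩)
    (fun x hx y hy hxy => Or.inl (hcl x hx y hy hxy)) ?_
  · rw [disjoint_right]
    intro z hz
    rcases mem_insert.1 hz with rfl | hz
    · exact hwQ
    · have := hR0 hz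
      simp only [mem_sdiff] at this
      exact this.2
  · intro y hy
    rcases mem_insert.1 hy with rfl | hy
    · exact Or.inr rfl
    · have := hR0 hy
      simp only [mem_sdiff, mem_filter, mem_univ, true_and] at this
      exact Or.inl this.1

/-- In the presence of a full vertex all `k`-cliques minus an edge are completed. -/
theorem fill [Fintype W] (h : Str k m H u K) (hk : 3 ≤ k) (hn : k + m ≤ Fintype.card W)
    {G : SimpleGraph W} {q : W} (hq : Full G q) {Q : Finset W} (hQ : Q.card = k) {a b : W}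
    (ha : a ∈ Q) (hb : b ∈ Q) (hab : a ≠ b)
    (hcl : ∀ x ∈ Q, ∀ y ∈ Q, x ≠ y → G.Adj x y ∨ s(x, y) = s(a, b)) : (step H G).Adj a b := by
  classical
  by_cases haq : a = q
  · subst haq; exact le_step _ _ (hq b hab.symm)
  by_cases hbq : b = q
  · subst hbq; exact le_step _ _ (hq a hab).symm
  obtain ⟨Q', hqQ, hQ', ha', hb', hcl'⟩ : ∃ Q' : Finset W, q ∈ Q' ∧ Q'.card = k ∧ a ∈ Q' ∧ b ∈ Q' ∧
      ∀ x ∈ Q', ∀ y ∈ Q', x ≠ y → G.Adj x y ∨ s(x, y) = s(a, b) := by
    by_cases hqQ : q ∈ Q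
    · exact ⟨Q, hqQ, hQ, ha, hb, hcl⟩
    obtain ⟨z, hz⟩ : ((Q.erase a).erase b).Nonempty := by
      rw [← card_pos, card_erase_of_mem (mem_erase.2 ⟨hab.symm, hb⟩), card_erase_of_mem ha]
      omega
    simp only [mem_erase] at hz
    refine ⟨insert q (Q.erase z), mem_insert_self _ _, ?_, ?_, ?_, ?_⟩
    · rw [card_insert_of_notMem (fun h' => hqQ (mem_of_mem_erase h')), card_erase_of_mem hz.2.2]
      omega
    · exact mem_insert_of_mem (mem_erase.2 ⟨fun e => hz.2.1 e.symm, ha⟩)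
    · exact mem_insert_of_mem (mem_erase.2 ⟨fun e => hz.1 e.symm, hb⟩)
    · intro x hx y hy hxy
      rcases mem_insert.1 hx with rfl | hx
      · exact Or.inl (hq y hxy.symm)
      rcases mem_insert.1 hy with rfl | hy
      · exact Or.inl (hq x hxy).symm
      exact hcl x (mem_of_mem_erase hx) y (mem_of_mem_erase hy) hxy
  obtain ⟨R, hR, hRm⟩ := exists_subset_card_eq (s := Q'ᶜ) (n := m) (by
    rw [card_compl, hQ']; omega)
  refine add_edge h (Q := Q') (R := R) (q := q) hqQ hQ' hRm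
    (disjoint_right.2 fun z hz => mem_compl.1 (hR hz)) hab (Or.inl ⟨ha', hb'⟩) hcl' ?_
  intro y hy
  exact Or.inl (hq y fun e => mem_compl.1 (hR hy) (e ▸ hqQ))

/-- Two cliques sharing `k - 3` vertices apart from a full vertex merge in one round. -/
theorem merge [Fintype W] [DecidableEq W] (h : Str k m H u K) (hk : 3 ≤ k)
    (hn : k + m ≤ Fintype.card W) {G : SimpleGraph W} {q : W} (hq : Full G q) {C Q : Finset W}
    (hC : Cl G C) (hQ : Cl G Q) (hcard : k ≤ ((C ∩ Q).erase q).card + 3) :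
    Cl (step H G) (C ∪ Q) := by
  have key : ∀ x ∈ C, ∀ y ∈ Q, x ≠ y → (step H G).Adj x y := by
    intro x hx y hy hxy
    by_cases hxQ : x ∈ Q
    · exact le_step _ _ (hQ x hxQ y hy hxy)
    by_cases hyC : y ∈ C
    · exact le_step _ _ (hC x hx y hyC hxy)
    by_cases hxq : x = q
    · subst hxq; exact le_step _ _ (hq y hxy.symm)
    by_cases hyq : y = q
    · subst hyq; exact le_step _ _ (hq x hxy).symm
    obtain ⟨S, hS, hSc⟩ := exists_subset_card_eq (s := (C ∩ Q).erase q) (n := k - 3) (by omega)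
    have hS1 : ∀ z ∈ S, z ≠ q ∧ z ∈ C ∧ z ∈ Q := fun z hz => by
      have := hS hz
      simp only [mem_erase, mem_inter] at this
      exact this
    have hqS : q ∉ S := fun h' => (hS1 q h').1 rfl
    have hyS : y ∉ insert q S := fun h' => by
      rcases mem_insert.1 h' with e | h'
      · exact hyq e
      · exact hyC (hS1 y h').2.1
    have hxS : x ∉ insert y (insert q S) := fun h' => by
      rcases mem_insert.1 h' with e | h'
      · exact hxy e
      rcases mem_insert.1 h' with e | h'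
      · exact hxq e
      · exact hxQ (hS1 x h').2.2
    refine fill h hk hn hq (Q := insert x (insert y (insert q S))) ?_ (by simp) (by simp) hxy ?_
    · rw [card_insert_of_notMem hxS, card_insert_of_notMem hyS, card_insert_of_notMem hqS, hSc]
      omega
    · intro z hz w hw hzw
      by_cases hzq : z = q
      · subst hzq; exact Or.inl (hq w hzw.symm)
      by_cases hwq : w = q
      · subst hwq; exact Or.inl (hq z hzw).symm
      simp only [mem_insert, hzq, hwq, false_or] at hz hw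
      rcases hz with rfl | rfl | hz <;> rcases hw with rfl | rfl | hw
      · exact absurd rfl hzw
      · exact Or.inr rfl
      · exact Or.inl (hC _ hx _ (hS1 _ hw).2.1 hzw)
      · exact Or.inr Sym2.eq_swap
      · exact absurd rfl hzw
      · exact Or.inl (hQ _ hy _ (hS1 _ hw).2.2 hzw)
      · exact Or.inl (hC _ (hS1 _ hz).2.1 _ hx hzw)
      · exact Or.inl (hQ _ (hS1 _ hz).2.2 _ hy hzw)
      · exact Or.inl (hC _ (hS1 _ hz).2.1 _ (hS1 _ hw).2.1 hzw)
  intro x hx y hy hxy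
  rcases mem_union.1 hx with hx | hx <;> rcases mem_union.1 hy with hy | hy
  · exact le_step _ _ (hC x hx y hy hxy)
  · exact key x hx y hy hxy
  · exact (key y hy x hx hxy.symm).symm
  · exact le_step _ _ (hQ x hx y hy hxy)

/-- The two ways in which an edge is added. -/
theorem new_edge [Fintype W] (h : Str k m H u K) {G : SimpleGraph W} {a b : W}
    (h1 : (step H G).Adj a b) (h0 : ¬ G.Adj a b) :
    (∃ Q : Finset W, Q.card = k ∧ a ∈ Q ∧ b ∈ Q ∧
      (∀ x ∈ Q, ∀ y ∈ Q, x ≠ y → G.Adj x y ∨ s(x, y) = s(a, b)) ∧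
      ∃ c ∈ Q, k + m ≤ dg (step H G) c + 1) ∨
    (∃ Q : Finset W, Q.card = k ∧ Cl G Q ∧ ∃ c, (c = a ∨ c = b) ∧ c ∈ Q ∧ k + m ≤ dg G c + 2) := by
  classical
  obtain ⟨hab, f, hf, x, y, hxy, hx, hy⟩ := ((step_adj _ _ a b).1 h1).resolve_left h0
  obtain ⟨hu, hK, hV, hA⟩ := h
  by_cases hxyK : x ∈ K ∧ y ∈ K
  · refine Or.inl ⟨K.map f, by rw [card_map, hK], ?_, ?_, ?_, f u, mem_map_of_mem _ hu, ?_⟩
    · rw [← hx]; exact mem_map_of_mem _ hxyK.1
    · rw [← hy]; exact mem_map_of_mem _ hxyK.2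
    · intro z hz w hw hzw
      obtain ⟨z', hz', rfl⟩ := mem_map.1 hz
      obtain ⟨w', hw', rfl⟩ := mem_map.1 hw
      exact hf z' w' ((hA z' w').2 ⟨fun e => hzw (congrArg f e), Or.inr (Or.inr ⟨hz', hw'⟩)⟩)
    · have h3 : ((univ.erase u).map f).card ≤ dg (step H G) (f u) := by
        refine le_dg fun w hw => ?_
        obtain ⟨v, hv, rfl⟩ := mem_map.1 hw
        rcases hf u v ((hA u v).2 ⟨(ne_of_mem_erase hv).symm, Or.inl rfl⟩) with h4 | h4
        · exact le_step _ _ h4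
        · have h5 : s(a, b) ∈ (step H G).edgeSet := h1
          rwa [← h4] at h5
      rw [card_map, card_erase_of_mem (mem_univ _), card_univ, hV] at h3
      omega
  · obtain ⟨v, hv, hvK, huv⟩ : ∃ v, v ≠ u ∧ v ∉ K ∧ ((f u = a ∧ f v = b) ∨ (f u = b ∧ f v = a)) := by
      obtain ⟨hne, rfl | rfl | h3⟩ := (hA x y).1 hxy
      · exact ⟨y, hne.symm, fun h' => hxyK ⟨hu, h'⟩, Or.inl ⟨hx, hy⟩⟩
      · exact ⟨x, hne, fun h' => hxyK ⟨h', hu⟩, Or.inr ⟨hy, hx⟩⟩
      · exact absurd h3 hxyK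
    have hne2 : ∀ z w : V, z ≠ v → w ≠ v → s(f z, f w) ≠ s(a, b) := by
      intro z w hz hw e
      have : f v ∈ s(f z, f w) := by
        rw [e]
        rcases huv with ⟨-, h4⟩ | ⟨-, h4⟩ <;> simp [h4]
      rcases Sym2.mem_iff.1 this with h4 | h4
      · exact hz (f.injective h4).symm
      · exact hw (f.injective h4).symm
    refine Or.inr ⟨K.map f, by rw [card_map, hK], ?_, f u, ?_, mem_map_of_mem _ hu, ?_⟩
    · intro z hz w hw hzw
      obtain ⟨z', hz', rfl⟩ := mem_map.1 hz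
      obtain ⟨w', hw', rfl⟩ := mem_map.1 hw
      refine (hf z' w' ((hA z' w').2 ⟨fun e => hzw (congrArg f e),
        Or.inr (Or.inr ⟨hz', hw'⟩)⟩)).resolve_right (hne2 z' w' ?_ ?_)
      · rintro rfl; exact hvK hz'
      · rintro rfl; exact hvK hw'
    · rcases huv with ⟨h4, -⟩ | ⟨h4, -⟩
      · exact Or.inl h4
      · exact Or.inr h4
    · have h3 : (((univ.erase u).erase v).map f).card ≤ dg G (f u) := by
        refine le_dg fun w hw => ?_
        obtain ⟨z, hz, rfl⟩ := mem_map.1 hw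
        simp only [mem_erase, mem_univ, and_true] at hz
        exact (hf u z ((hA u z).2 ⟨hz.2.symm, Or.inl rfl⟩)).resolve_right (hne2 u z hv.symm hz.1)
      rw [card_map, card_erase_of_mem (mem_erase.2 ⟨hv, mem_univ _⟩),
        card_erase_of_mem (mem_univ _), card_univ, hV] at h3
      omega

omit [Fintype V] in
theorem cl_of_new [Fintype W] {G : SimpleGraph W} {Q : Finset W} {a b : W}
    (h1 : (step H G).Adj a b)
    (hcl : ∀ x ∈ Q, ∀ y ∈ Q, x ≠ y → G.Adj x y ∨ s(x, y) = s(a, b)) : Cl (step H G) Q := by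
  intro x hx y hy hxy
  rcases hcl x hx y hy hxy with h2 | h2
  · exact le_step _ _ h2
  · have h5 : s(a, b) ∈ (step H G).edgeSet := h1
    rwa [← h2] at h5

theorem exists_new {V W : Type} {H : SimpleGraph V} {G : SimpleGraph W} (h : step H G ≠ G) :
    ∃ a b, (step H G).Adj a b ∧ ¬ G.Adj a b := by
  by_contra hn
  push Not at hn
  exact h (le_antisymm hn (le_step H G))

theorem step_eq_of_card_lt [Fintype W] (h : Str k m H u K) (hn : Fintype.card W < k + m)
    (G : SimpleGraph W) : step H G = G := by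
  by_contra hne
  obtain ⟨a, b, h1, h0⟩ := exists_new hne
  obtain ⟨-, f, -⟩ := ((step_adj _ _ a b).1 h1).resolve_left h0
  have := Fintype.card_le_of_embedding f
  rw [h.2.2.1] at this
  omega

theorem iter_mono {V W : Type} (H : SimpleGraph V) (G : SimpleGraph W) {s t : ℕ} (hst : s ≤ t) :
    (step H)^[s] G ≤ (step H)^[t] G := by
  induction t, hst using Nat.le_induction with
  | base => exact le_rfl
  | succ t _ ih => rw [Function.iterate_succ_apply']; exact ih.trans (le_step _ _)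

theorem tau_le {V W : Type} {H : SimpleGraph V} {G : SimpleGraph W} {t : ℕ}
    (h : (step H)^[t] G = (step H)^[t + 1] G) : tau H G ≤ t := Nat.sInf_le h

end

end Pool.Agent.H6.GB
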