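import Pool.Agent.H6.GB.Upper

/-! # Cliques with few pendant edges, and small cliques: the running time is bounded -/

set_option autoImplicit false

namespace Pool.Agent.H6.GB

open Finset

variable {k m : ℕ} {V W : Type} [Fintype V] [Fintype W] {H : SimpleGraph V} {u : V} {K : Finset V}

/-- The cliques that grow while no new full vertex appears. -/
theorem chain [DecidableEq W] (h : Str k m H u K) (hk : 3 ≤ k) (hm : 1 ≤ m)
    (hc : k ≤ 5 ∨ m ≤ 4) (hn : k + m ≤ Fintype.card W) (G : SimpleGraph W) (q : W)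
    (hq : Full G q) (hw : ∀ v, Full ((step H)^[2 * m + 1] G) v → Full G v) :
    ∀ j, j + 1 ≤ 2 * m → ∀ a b, ((step H)^[j + 1] G).Adj a b → ¬ ((step H)^[j] G).Adj a b →
      ∃ C C' : Finset W, C ⊆ C' ∧ Cl ((step H)^[j + 1] G) C ∧ Cl ((step H)^[j + 2] G) C' ∧
        a ∈ C' ∧ b ∈ C' ∧ k + j / 2 ≤ C.card ∧ k + (j + 1) / 2 ≤ C'.card ∧
        (j = 0 ∨ C'.card + 2 ≤ k + m) := by
  have hfull : ∀ i, i ≤ 2 * m + 1 → ∀ v, Full ((step H)^[i] G) v → Full G v := fun i hi v hv =>
    hw v (hv.mono (iter_mono H G hi))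
  intro j
  induction j with
  | zero =>
    intro hj a b h1 h0
    rw [Function.iterate_succ_apply'] at h1
    rcases new_edge h h1 h0 with ⟨Q, hQ, haQ, hbQ, hcl, -⟩ | ⟨Q, hQ, hcl, c, hc', hcQ, hdeg⟩
    · have hclQ := cl_of_new h1 hcl
      refine ⟨Q, Q, Subset.rfl, ?_, ?_, haQ, hbQ, by omega, by omega, Or.inl rfl⟩
      · rw [Function.iterate_succ_apply']; exact hclQ
      · rw [Function.iterate_succ_apply', Function.iterate_succ_apply']
        exact hclQ.mono (le_step _ _)
    · exfalso
      have hf := full_next h hm hQ hcl hcQ hdeg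
      have hf' : Full G c := hfull 1 (by omega) c hf
      rcases hc' with rfl | rfl
      · exact h0 (hf' b h1.ne')
      · exact h0 (hf' a h1.ne).symm
  | succ j ih =>
    intro hj a b h1 h0
    have h1' := h1
    rw [Function.iterate_succ_apply'] at h1
    have mono0 : G ≤ (step H)^[j] G := iter_mono H G (Nat.zero_le _)
    have mono1 : G ≤ (step H)^[j + 1] G := iter_mono H G (Nat.zero_le _)
    have mono2 : G ≤ (step H)^[j + 2] G := iter_mono H G (Nat.zero_le _)
    rcases new_edge h h1 h0 with ⟨Q, hQ, haQ, hbQ, hcl, -⟩ | ⟨Q, hQ, hcl, c, hc', hcQ, hdeg⟩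
    · have hclQ : Cl ((step H)^[j + 2] G) Q := by
        have := cl_of_new h1 hcl
        rwa [← Function.iterate_succ_apply' (step H)] at this
      obtain ⟨c, hcQ, d, hdQ, hcd, hcd1, hcd0⟩ : ∃ c ∈ Q, ∃ d ∈ Q, c ≠ d ∧
          ((step H)^[j + 1] G).Adj c d ∧ ¬ ((step H)^[j] G).Adj c d := by
        by_contra hcon
        push Not at hcon
        apply h0
        rw [Function.iterate_succ_apply']
        refine fill h hk hn (hq.mono mono0) hQ haQ hbQ h1.ne fun x hx y hy hxy => ?_
        rcases hcl x hx y hy hxy with h3 | h3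
        · exact Or.inl (hcon x hx y hy hxy h3)
        · exact Or.inr h3
      obtain ⟨C, C', hCC, hC, hC', hcC, hdC, hs1, hs2, -⟩ := ih (by omega) c d hcd1 hcd0
      have hcq : c ≠ q := by
        rintro rfl; exact hcd0 ((hq.mono mono0) d hcd.symm)
      have hdq : d ≠ q := by
        rintro rfl; exact hcd0 ((hq.mono mono0) c hcd).symm
      have hbound : (C' ∪ Q).card + 2 ≤ k + m := by
        by_contra hcon
        have hdeg : ((C' ∪ Q).erase c).card ≤ dg ((step H)^[j + 2] G) c := by
          refine le_dg fun w hw' => ?_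
          rcases mem_union.1 (mem_of_mem_erase hw') with h3 | h3
          · exact hC' c hcC w h3 (ne_of_mem_erase hw').symm
          · exact hclQ c hcQ w h3 (ne_of_mem_erase hw').symm
        rw [card_erase_of_mem (mem_union_right _ hcQ)] at hdeg
        have hf := full_next h hm hQ hclQ hcQ (by omega)
        rw [← Function.iterate_succ_apply' (step H)] at hf
        have hf' : Full G c := hfull _ (by omega) c hf
        exact hcd0 ((hf'.mono mono0) d hcd.symm)
      have hcap : k ≤ ((C' ∩ Q).erase q).card + 3 := by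
        rcases hc with h5 | h4
        · have h6 : ({c, d} : Finset W) ⊆ (C' ∩ Q).erase q := by
            intro z hz
            simp only [mem_insert, mem_singleton] at hz
            rcases hz with rfl | rfl
            · exact mem_erase.2 ⟨hcq, mem_inter.2 ⟨hcC, hcQ⟩⟩
            · exact mem_erase.2 ⟨hdq, mem_inter.2 ⟨hdC, hdQ⟩⟩
          have h7 := card_le_card h6
          rw [card_pair hcd] at h7
          omega
        · have h6 := card_union_add_card_inter C' Q
          have h7 := pred_card_le_card_erase (a := q) (s := C' ∩ Q)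
          omega
      have hmerge := merge h hk hn (hq.mono mono2) hC' hclQ hcap
      rw [← Function.iterate_succ_apply' (step H)] at hmerge
      refine ⟨C', C' ∪ Q, subset_union_left, hC', hmerge, mem_union_right _ haQ,
        mem_union_right _ hbQ, hs2, ?_, Or.inr hbound⟩
      have hlt : C.card < (C' ∪ Q).card := by
        refine card_lt_card (ssubset_iff_of_subset (hCC.trans subset_union_left) |>.2 ?_)
        by_cases haC : a ∈ C
        · exact ⟨b, mem_union_right _ hbQ, fun hbC => h0 (hC a haC b hbC h1.ne)⟩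
        · exact ⟨a, mem_union_right _ haQ, haC⟩
      omega
    · exfalso
      have hf := full_next h hm hQ hcl hcQ hdeg
      rw [← Function.iterate_succ_apply' (step H)] at hf
      have hf' : Full G c := hfull _ (by omega) c hf
      rcases hc' with rfl | rfl
      · exact h0 ((hf'.mono mono1) b h1.ne')
      · exact h0 ((hf'.mono mono1) a h1.ne).symm

/-- If no new full vertex appears in a window of length `2 m + 1`, the process stops. -/
theorem window (h : Str k m H u K) (hk : 3 ≤ k) (hm : 1 ≤ m)
    (hc : k ≤ 5 ∨ m ≤ 4) (hn : k + m ≤ Fintype.card W) (G : SimpleGraph W) (q : W)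
    (hq : Full G q) (hw : ∀ v, Full ((step H)^[2 * m + 1] G) v → Full G v) :
    (step H)^[2 * m - 1] G = (step H)^[2 * m - 1 + 1] G := by
  classical
  by_contra hne
  rw [Function.iterate_succ_apply'] at hne
  obtain ⟨a, b, h1, h0⟩ := exists_new (Ne.symm hne)
  rw [← Function.iterate_succ_apply' (step H)] at h1
  obtain ⟨C, C', -, -, -, -, -, -, h2, h3⟩ :=
    chain h hk hm hc hn G q hq hw (2 * m - 1) (by omega) a b h1 h0
  omega

theorem top_of_fulls (h : Str k m H u K) (hk : 3 ≤ k) (hn : k + m ≤ Fintype.card W)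
    {G : SimpleGraph W} (hf : k ≤ (fulls G).card + 2) : step H G = ⊤ := by
  classical
  refine eq_top_iff.2 fun a b hab => ?_
  have hab : a ≠ b := hab
  by_cases hadj : G.Adj a b
  · exact le_step _ _ hadj
  have ha : ¬ Full G a := fun h' => hadj (h' b hab.symm)
  have hb : ¬ Full G b := fun h' => hadj (h' a hab).symm
  obtain ⟨S, hS, hSc⟩ := exists_subset_card_eq (s := fulls G) (n := k - 2) (by omega)
  have hS1 : ∀ z ∈ S, Full G z := fun z hz => mem_fulls.1 (hS hz)
  obtain ⟨q, hq⟩ : S.Nonempty := by rw [← card_pos]; omega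
  have hbS : b ∉ S := fun h' => hb (hS1 b h')
  have haS : a ∉ insert b S := fun h' => by
    rcases mem_insert.1 h' with e | h'
    · exact hab e
    · exact ha (hS1 a h')
  refine fill h hk hn (hS1 q hq) (Q := insert a (insert b S)) ?_ (by simp) (by simp) hab ?_
  · rw [card_insert_of_notMem haS, card_insert_of_notMem hbS, hSc]; omega
  · intro z hz w hw hzw
    by_cases hzS : z ∈ S
    · exact Or.inl (hS1 z hzS w hzw.symm)
    by_cases hwS : w ∈ S
    · exact Or.inl (hS1 w hwS z hzw).symm
    simp only [mem_insert, hzS, hwS, or_false] at hz hw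
    rcases hz with rfl | rfl <;> rcases hw with rfl | rfl
    · exact absurd rfl hzw
    · exact Or.inr rfl
    · exact Or.inr Sym2.eq_swap
    · exact absurd rfl hzw

theorem exists_full (h : Str k m H u K) (hm : 1 ≤ m) {G : SimpleGraph W} (hne : step H G ≠ G) :
    ∃ v, Full (step H (step H G)) v := by
  obtain ⟨a, b, h1, h0⟩ := exists_new hne
  rcases new_edge h h1 h0 with ⟨Q, hQ, haQ, hbQ, hcl, c, hcQ, hdeg⟩ | ⟨Q, hQ, hcl, c, hc, hcQ, hdeg⟩
  · exact ⟨c, full_next h hm hQ (cl_of_new h1 hcl) hcQ (by omega)⟩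
  · exact ⟨c, (full_next h hm hQ hcl hcQ hdeg).mono (le_step _ _)⟩

theorem tau_bounded (h : Str k m H u K) (hk : 3 ≤ k) (hm : 1 ≤ m) (hc : k ≤ 5 ∨ m ≤ 4)
    (G : SimpleGraph W) : tau H G ≤ (k - 3) * (2 * m + 1) + 3 := by
  rcases lt_or_ge (Fintype.card W) (k + m) with hlt | hn
  · have h0 : tau H G ≤ 0 := tau_le (by
      change G = step H G
      rw [step_eq_of_card_lt h hlt])
    omega
  have key : ∀ j, (∃ t ≤ j * (2 * m + 1) + 2, (step H)^[t] G = (step H)^[t + 1] G) ∨
      1 + j ≤ (fulls ((step H)^[j * (2 * m + 1) + 2] G)).card := by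
    intro j
    induction j with
    | zero =>
      by_cases hne : step H G = G
      · exact Or.inl ⟨0, by omega, by simp [hne]⟩
      · right
        obtain ⟨v, hv⟩ := exists_full h hm hne
        have : 0 < (fulls ((step H)^[0 * (2 * m + 1) + 2] G)).card := by
          refine card_pos.2 ⟨v, mem_fulls.2 ?_⟩
          have e : 0 * (2 * m + 1) + 2 = 2 := by omega
          rw [e]
          exact hv
        omega
    | succ j ih =>
      rcases ih with ⟨t, ht, he⟩ | ih
      · exact Or.inl ⟨t, ht.trans (by rw [add_mul]; omega), he⟩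
      set G' := (step H)^[j * (2 * m + 1) + 2] G with hG'
      obtain ⟨q, hq⟩ : (fulls G').Nonempty := by rw [← card_pos]; omega
      have hit : ∀ s, (step H)^[s] G' = (step H)^[j * (2 * m + 1) + 2 + s] G := by
        intro s
        rw [hG', ← Function.iterate_add_apply, add_comm]
      by_cases hw : ∀ v, Full ((step H)^[2 * m + 1] G') v → Full G' v
      · have h2 := window h hk hm hc hn G' q (mem_fulls.1 hq) hw
        rw [hit, hit] at h2
        refine Or.inl ⟨j * (2 * m + 1) + 2 + (2 * m - 1), ?_, h2⟩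
        rw [add_mul]; omega
      · push Not at hw
        obtain ⟨v, hv1, hv0⟩ := hw
        right
        have h3 := fulls_lt (iter_mono H G' (Nat.zero_le (2 * m + 1))) hv1 hv0
        rw [hit, hit] at h3
        have e : (j + 1) * (2 * m + 1) + 2 = j * (2 * m + 1) + 2 + (2 * m + 1) := by ring
        rw [e]
        have e0 : (fulls ((step H)^[j * (2 * m + 1) + 2 + 0] G)).card = (fulls G').card := rfl
        omega
  rcases key (k - 3) with ⟨t, ht, he⟩ | hf
  · exact (tau_le he).trans (by omega)
  · have htop := top_of_fulls h hk hn (G := (step H)^[(k - 3) * (2 * m + 1) + 2] G) (by omega)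
    rw [← Function.iterate_succ_apply' (step H)] at htop
    have htop' : (step H)^[(k - 3) * (2 * m + 1) + 3] G = ⊤ := htop
    have h2 : (step H)^[(k - 3) * (2 * m + 1) + 3 + 1] G =
        step H ((step H)^[(k - 3) * (2 * m + 1) + 3] G) := Function.iterate_succ_apply' _ _ _
    refine tau_le ?_
    rw [h2, htop']
    exact (eq_top_iff.2 (le_step H ⊤)).symm

theorem M_bounded (h : Str k m H u K) (hk : 3 ≤ k) (hm : 1 ≤ m) (hc : k ≤ 5 ∨ m ≤ 4) (n : ℕ) :
    M H n ≤ (k - 3) * (2 * m + 1) + 3 :=
  ciSup_le fun G => tau_bounded h hk hm hc G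

end Pool.Agent.H6.GB
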