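import Pool.Agent.H6.GB.Geo2
import Pool.Graph.R_pool_sql_team_seeded_63374d34.N77.CP.Fin
import Pool.Graph.R_pool_sql_team_seeded_2aa45f1a.Q152.TC.VC

/-!
# Commensurated polycyclic subgroups of groups which act on trees
-/

set_option autoImplicit false

namespace Pool.Agent.H6.GB

open SimpleGraph
open scoped commutatorElement
open Pool.Agent.N77.CP (Csd Mx SL mem_map_conj)

section action

variable {V : Type} {T : SimpleGraph V} {Γ : Type} [Group Γ] [MulAction Γ V]

/-- `K` fixes a vertex, or `K` preserves a line and contains a translation of it -/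
def Q (Γ : Type) [Group Γ] [MulAction Γ V] (T : SimpleGraph V) (K : Subgroup Γ) : Prop :=
  (∃ v : V, ∀ k ∈ K, k • v = v) ∨
    ∃ (f : ℤ → V) (t : ℤ) (c : Γ), Line T f ∧ c ∈ K ∧ Tr c f t ∧ K ≤ Pr Γ f

theorem zpow_conj_mem {H : Subgroup Γ} {b : Γ} (hb : ∀ h ∈ H, b * h * b⁻¹ ∈ H)
    (hb' : ∀ h ∈ H, b⁻¹ * h * b ∈ H) (n : ℤ) : ∀ h ∈ H, (b ^ n)⁻¹ * h * b ^ n ∈ H := by
  have h1 : b ∈ Subgroup.normalizer (H : Set Γ) := by
    rw [Subgroup.mem_normalizer_iff]
    intro h
    refine ⟨hb h, fun hh => ?_⟩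
    have := hb' _ hh
    convert this using 1
    group
  have h2 : b ^ n ∈ Subgroup.normalizer (H : Set Γ) := zpow_mem h1 n
  intro h hh
  exact (Subgroup.mem_normalizer_iff''.1 h2 h).1 hh

theorem Q_step (hadj : ∀ (γ : Γ) (x y : V), T.Adj x y → T.Adj (γ • x) (γ • y))
    (hT : T.IsTree) (hinv : ∀ (g : Γ) (u v : V), T.Adj u v → ¬ (g • u = v ∧ g • v = u))
    {H : Subgroup Γ} {b : Γ} (hb : ∀ h ∈ H, b * h * b⁻¹ ∈ H)
    (hb' : ∀ h ∈ H, b⁻¹ * h * b ∈ H) (hH : Q Γ T H) : Q Γ T (H ⊔ Subgroup.zpowers b) := by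
  rcases hH with ⟨v, hv⟩ | ⟨f, t, c, hf, hc, hcf, hHf⟩
  · by_cases hfix : ∃ y : V, b • y = y
    · obtain ⟨y, hy⟩ := hfix
      obtain ⟨u, hu, hbu⟩ := common hadj hT hb' hv hy
      left
      refine ⟨u, ?_⟩
      have h1 : H ⊔ Subgroup.zpowers b ≤ MulAction.stabilizer Γ u := by
        refine sup_le hu ?_
        rw [Subgroup.zpowers_le]
        exact hbu
      exact fun k hk => h1 hk
    · push Not at hfix
      obtain ⟨x, l, hx⟩ := lin_of_nofix hadj hT hinv hfix
      obtain ⟨f, hf, hbf⟩ := line_of_lin hadj hT hx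
      right
      refine ⟨f, l, b, hf, Subgroup.mem_sup_right (Subgroup.mem_zpowers b), hbf, ?_⟩
      refine sup_le ?_ ?_
      · intro h hh
        have h1 : ∀ h ∈ H, ∀ i, h • f i = f i := by
          intro h hh i
          refine (hbf.lin hf i).fixed hadj hT (y := v) ?_
          intro n
          have h2 := hv _ (zpow_conj_mem hb hb' n h hh)
          rw [mul_smul, mul_smul, inv_smul_eq_iff] at h2
          exact h2
        exact ⟨fun i => ⟨i, h1 h hh i⟩, fun i => ⟨i, h1 _ (inv_mem hh) i⟩⟩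
      · rw [Subgroup.zpowers_le]
        exact hbf.mem_Pr
  · right
    have key : ∀ g : Γ, (∀ h ∈ H, g * h * g⁻¹ ∈ H) → ∀ i, ∃ j, g • f i = f j := by
      intro g hg
      have h1 := hcf.conj g
      have h2 := hf.smul hadj hT g
      have h3 := hHf (hg c hc)
      obtain ⟨t', h4⟩ := tr_of_pres hadj hT hinv hf h3.1 (h1.nofix hadj hT h2)
      exact Tr.unique hadj hT hf h2 h4 h1
    refine ⟨f, t, c, hf, Subgroup.mem_sup_left hc, hcf, sup_le hHf ?_⟩
    rw [Subgroup.zpowers_le]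
    exact ⟨key b hb, key b⁻¹ (by simpa using hb')⟩

/-- induction along a series with cyclic factors -/
theorem poly_ind (R : Subgroup Γ → Prop) (h0 : R ⊥)
    (hs : ∀ (H : Subgroup Γ) (b : Γ), R H → (∀ h ∈ H, b * h * b⁻¹ ∈ H) →
      (∀ h ∈ H, b⁻¹ * h * b ∈ H) → R (H ⊔ Subgroup.zpowers b)) :
    ∀ (n : ℕ) (B : Subgroup Γ), SL n B → Mx B → R B := by
  classical
  intro n
  induction n with
  | zero =>
    intro B hB _
    have h1 : B = ⊥ := hB
    rw [h1]
    exact h0
  | succ n ih =>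
    intro B hB hm
    have hle : ⁅B, B⁆ ≤ B := by
      rw [Subgroup.commutator_le]
      intro a ha b hb
      exact mul_mem (mul_mem (mul_mem ha hb) (inv_mem ha)) (inv_mem hb)
    have h1 : R ⁅B, B⁆ := ih _ hB (hm.of_le hle)
    have h2 : B.FG := by
      have := hm ⊤
      rw [← Group.fg_def] at this
      exact (Group.fg_iff_subgroup_fg B).1 this
    obtain ⟨S, hS⟩ := h2
    have key : ∀ S' : Finset Γ, (S' : Set Γ) ⊆ B →
        R (⁅B, B⁆ ⊔ Subgroup.closure (S' : Set Γ)) := by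
      intro S'
      induction S' using Finset.induction_on with
      | empty =>
        intro _
        simpa using h1
      | insert b S' _ ihS =>
        intro hsub
        rw [Finset.coe_insert, Set.insert_subset_iff] at hsub
        have h3 := ihS hsub.2
        have hHB : ⁅B, B⁆ ⊔ Subgroup.closure (S' : Set Γ) ≤ B :=
          sup_le hle ((Subgroup.closure_le _).2 hsub.2)
        have hnorm : ∀ g ∈ B, ∀ h ∈ ⁅B, B⁆ ⊔ Subgroup.closure (S' : Set Γ),
            g * h * g⁻¹ ∈ ⁅B, B⁆ ⊔ Subgroup.closure (S' : Set Γ) := by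
          intro g hg h hh
          have h4 : g * h * g⁻¹ = ⁅g, h⁆ * h := by
            rw [commutatorElement_def]
            group
          rw [h4]
          exact mul_mem (Subgroup.mem_sup_left (Subgroup.commutator_mem_commutator hg (hHB hh))) hh
        have h5 := hs _ b h3 (hnorm b hsub.1) (by
          intro h hh
          have := hnorm b⁻¹ (inv_mem hsub.1) h hh
          rwa [inv_inv] at this)
        rw [Finset.coe_insert, Set.insert_eq, Subgroup.closure_union, ← Subgroup.zpowers_eq_closure,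
          sup_comm (Subgroup.zpowers b), ← sup_assoc]
        exact h5
    have h3 := key S (by
      rw [← hS]
      exact Subgroup.subset_closure)
    rwa [hS, sup_eq_right.2 hle] at h3

/-- a polycyclic subgroup which is commensurated by a group which acts on a tree and does not preserve
a line fixes a vertex -/
theorem com (hadj : ∀ (γ : Γ) (x y : V), T.Adj x y → T.Adj (γ • x) (γ • y))
    (hT : T.IsTree) (hinv : ∀ (g : Γ) (u v : V), T.Adj u v → ¬ (g • u = v ∧ g • v = u))
    (hline : ∀ f : ℤ → V, Line T f → ∃ g : Γ, g ∉ Pr Γ f)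
    (B : Subgroup Γ) (hsol : Group.IsSolvable B) (hm : Mx B) (hcsd : Csd B) :
    ∃ v : V, ∀ b ∈ B, b • v = v := by
  obtain ⟨n, hn⟩ := Pool.Agent.N77.CP.exists_SL hsol
  have hbot : Q Γ T (⊥ : Subgroup Γ) := by
    obtain ⟨v⟩ := hT.1.nonempty
    refine Or.inl ⟨v, fun k hk => ?_⟩
    rw [Subgroup.mem_bot] at hk
    rw [hk, one_smul]
  have hQ : Q Γ T B := poly_ind (Q Γ T) hbot
    (fun H b hH h1 h2 => Q_step hadj hT hinv h1 h2 hH) n B hn hm
  rcases hQ with h | ⟨f, t, c, hf, hc, hcf, hBf⟩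
  · exact h
  exfalso
  obtain ⟨g, hg⟩ := hline f hf
  apply hg
  have key : ∀ g : Γ, ∀ i, ∃ j, g • f i = f j := by
    intro g
    -- a power of `c` is conjugated into `B` by `g`
    obtain ⟨k, hk, hkB⟩ : ∃ k : ℤ, k ≠ 0 ∧ g * c ^ k * g⁻¹ ∈ B := by
      have h1 := hcsd g⁻¹
      obtain ⟨m, hm0, hmB⟩ := Pool.Agent.Q152.TC.pow_mem_of_relIndex h1 hc
      refine ⟨m, by exact_mod_cast hm0.ne', ?_⟩
      rw [mem_map_conj, inv_inv] at hmB
      rw [zpow_natCast]
      exact hmB
    have h1 := (hcf.pow hk).conj g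
    have h2 := hf.smul hadj hT g
    obtain ⟨t', h4⟩ := tr_of_pres hadj hT hinv hf (hBf hkB).1 (h1.nofix hadj hT h2)
    exact Tr.unique hadj hT hf h2 h4 h1
  exact ⟨key g, key g⁻¹⟩

end action

end Pool.Agent.H6.GB
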