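import Mathlib

/-!
# Trees: the four point condition and the axes of automorphisms
-/

set_option autoImplicit false

namespace Pool.Agent.H6.GB

open SimpleGraph

section tree

variable {V : Type} {T : SimpleGraph V}

theorem toward (hT : T.IsTree) {y z : V} (h : z ≠ y) :
    ∃ u, T.Adj z u ∧ T.dist y z = T.dist y u + 1 := by
  obtain ⟨w, hw⟩ := hT.connected.exists_walk_length_eq_dist z y
  cases w with
  | nil => exact absurd rfl h
  | @cons _ u _ hadj p =>
    refine ⟨u, hadj, ?_⟩
    rw [Walk.length_cons] at hw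
    have h1 : T.dist u y ≤ p.length := dist_le p
    rcases hT.dist_eq_dist_add_one_of_adj y hadj with h2 | h2
    · exact h2
    · rw [dist_comm (u := z)] at hw
      rw [dist_comm (u := u)] at h1
      omega

theorem unique_toward (hT : T.IsTree) {y z u₁ u₂ : V} (h₁ : T.Adj z u₁) (h₂ : T.Adj z u₂)
    (d₁ : T.dist y z = T.dist y u₁ + 1) (d₂ : T.dist y z = T.dist y u₂ + 1) : u₁ = u₂ := by
  obtain ⟨p₁, hp₁⟩ := hT.connected.exists_walk_length_eq_dist u₁ y
  obtain ⟨p₂, hp₂⟩ := hT.connected.exists_walk_length_eq_dist u₂ y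
  have e1 : (Walk.cons h₁ p₁).length = T.dist z y := by
    rw [Walk.length_cons, hp₁, dist_comm (u := z), d₁, dist_comm (u := u₁)]
  have e2 : (Walk.cons h₂ p₂).length = T.dist z y := by
    rw [Walk.length_cons, hp₂, dist_comm (u := z), d₂, dist_comm (u := u₂)]
  have h3 := (hT.existsUnique_path z y).unique (Walk.isPath_of_length_eq_dist _ e1)
    (Walk.isPath_of_length_eq_dist _ e2)
  have h4 := congrArg Walk.snd h3
  simpa using h4

theorem tri (hT : T.IsTree) (x y z : V) : T.dist x z ≤ T.dist x y + T.dist y z :=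
  hT.connected.dist_triangle

theorem cut (hT : T.IsTree) {x x' y : V} (hadj : T.Adj x x') (hy : T.dist y x = T.dist y x' + 1) :
    ∀ (n : ℕ) (z : V), T.dist x z = n → T.dist x' z = T.dist x z + 1 →
      T.dist y z = T.dist y x' + 1 + T.dist x z := by
  intro n
  induction n using Nat.strong_induction_on with
  | _ n ih =>
    intro z hn hz
    by_cases hzx : z = x
    · subst hzx
      rw [dist_self, add_zero]
      exact hy
    obtain ⟨z', hzz', h1⟩ := toward hT hzx
    have key : ∀ w : V, T.Adj z w → T.dist x z = T.dist x w + 1 → T.dist x' w = T.dist x w + 1 := by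
      intro w hw h2
      have a1 := tri hT x' w z
      have a2 := tri hT x' x w
      have a3 : T.dist w z = 1 := dist_eq_one_iff_adj.2 hw.symm
      have a4 : T.dist x' x = 1 := dist_eq_one_iff_adj.2 hadj.symm
      omega
    have hz' := key z' hzz' h1
    have h2 := ih (T.dist x z') (by omega) z' rfl hz'
    rcases hT.dist_eq_dist_add_one_of_adj y hzz' with h3 | h3
    · omega
    exfalso
    by_cases hz'x : z' = x
    · subst hz'x
      have h4 := unique_toward hT hzz'.symm hadj h3 hy
      rw [h4, dist_self] at hz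
      omega
    · obtain ⟨z'', hz'z'', h4⟩ := toward hT hz'x
      have h5 : T.dist x' z'' = T.dist x z'' + 1 := by
        have a1 := tri hT x' z'' z'
        have a2 := tri hT x' x z''
        have a3 : T.dist z'' z' = 1 := dist_eq_one_iff_adj.2 hz'z''.symm
        have a4 : T.dist x' x = 1 := dist_eq_one_iff_adj.2 hadj.symm
        omega
      have h6 := ih (T.dist x z'') (by omega) z'' rfl h5
      have h7 := unique_toward hT hzz'.symm hz'z'' h3 (by omega)
      rw [h7] at h1
      omega

/-- the four point condition -/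
theorem fpc (hT : T.IsTree) (y z w : V) : ∀ (n : ℕ) (x : V), T.dist x y = n →
    T.dist x y + T.dist z w ≤ T.dist x z + T.dist y w ∨
    T.dist x y + T.dist z w ≤ T.dist x w + T.dist y z := by
  intro n
  induction n with
  | zero =>
    intro x hx
    have h1 : x = y := (hT.connected.dist_eq_zero_iff).1 hx
    subst h1
    left
    have := tri hT z x w
    rw [dist_self, dist_comm (u := x) (v := z)]
    omega
  | succ n ih =>
    intro x hx
    have hxy : x ≠ y := by
      rintro rfl
      rw [dist_self] at hx
      omega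
    obtain ⟨x', hadj, h1⟩ := toward hT hxy
    rw [dist_comm (u := y) (v := x), dist_comm (u := y) (v := x')] at h1
    have h2 := ih x' (by omega)
    have hy : T.dist y x = T.dist y x' + 1 := by
      rw [dist_comm (u := y) (v := x), dist_comm (u := y) (v := x')]
      exact h1
    have c1 := tri hT z x w
    have c2 := dist_comm (G := T) (u := z) (v := x)
    have c3 := dist_comm (G := T) (u := x) (v := y)
    have c4 := dist_comm (G := T) (u := x') (v := y)
    rcases hT.dist_eq_dist_add_one_of_adj z hadj with h3 | h3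
    · rcases hT.dist_eq_dist_add_one_of_adj w hadj with h4 | h4
      · have c5 := dist_comm (G := T) (u := x') (v := z)
        have c6 := dist_comm (G := T) (u := x') (v := w)
        have c7 := dist_comm (G := T) (u := x) (v := w)
        omega
      · have c6 := dist_comm (G := T) (u := x') (v := w)
        have c7 := dist_comm (G := T) (u := x) (v := w)
        have h5 := cut hT hadj hy _ w rfl (by omega)
        omega
    · have c5 := dist_comm (G := T) (u := x') (v := z)
      have h5 := cut hT hadj hy _ z rfl (by omega)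
      omega

theorem fp (hT : T.IsTree) (x y z w : V) :
    T.dist x y + T.dist z w ≤ T.dist x z + T.dist y w ∨
    T.dist x y + T.dist z w ≤ T.dist x w + T.dist y z := fpc hT y z w _ x rfl

/-- local geodesics are geodesics -/
theorem geod (hT : T.IsTree) (p : ℕ → V) (d : ℕ) (hd : 0 < d)
    (h1 : ∀ n, T.dist (p n) (p (n + 1)) = d) (h2 : ∀ n, T.dist (p n) (p (n + 2)) = 2 * d) :
    ∀ n, T.dist (p 0) (p n) = n * d ∧ T.dist (p 0) (p (n + 1)) = (n + 1) * d := by
  intro n
  induction n with
  | zero => exact ⟨by simp, by rw [h1]; ring⟩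
  | succ n ih =>
    refine ⟨ih.2, ?_⟩
    have a1 := fp hT (p 0) (p (n + 1)) (p n) (p (n + 2))
    have a2 := tri hT (p 0) (p (n + 1)) (p (n + 2))
    have a3 := h1 (n + 1)
    have a4 := h1 n
    have a5 := h2 n
    have a6 := dist_comm (G := T) (u := p n) (v := p (n + 1))
    have e1 : (n + 1) * d = n * d + d := by ring
    have e2 : (n + 1 + 1) * d = n * d + d + d := by ring
    have e3 : p (n + 1 + 1) = p (n + 2) := rfl
    rw [e3]
    rw [show n + 1 + 1 = n + 2 from rfl] at a3
    omega

/-- `v` is on the geodesic from `u` to `w` -/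
def Btw (T : SimpleGraph V) (u v w : V) : Prop := T.dist u v + T.dist v w = T.dist u w

theorem Btw.symm {u v w : V} (h : Btw T u v w) : Btw T w v u := by
  unfold Btw at *
  rw [dist_comm (u := w) (v := v), dist_comm (u := v) (v := u), dist_comm (u := w) (v := u)]
  omega

end tree

section action

variable {V : Type} {T : SimpleGraph V} {Γ : Type} [Group Γ] [MulAction Γ V]

theorem ds (hadj : ∀ (γ : Γ) (x y : V), T.Adj x y → T.Adj (γ • x) (γ • y)) (hT : T.IsTree) (g : Γ)
    (x y : V) : T.dist (g • x) (g • y) = T.dist x y := by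
  have key : ∀ (g : Γ) (x y : V), T.dist (g • x) (g • y) ≤ T.dist x y := by
    intro g x y
    obtain ⟨w, hw⟩ := hT.connected.exists_walk_length_eq_dist x y
    rw [← hw]
    clear hw
    induction w with
    | nil => simp
    | @cons a b c h p ih =>
      have h1 := tri hT (g • a) (g • b) (g • c)
      have h2 : T.dist (g • a) (g • b) = 1 := dist_eq_one_iff_adj.2 (hadj g _ _ h)
      rw [Walk.length_cons]
      omega
  refine le_antisymm (key g x y) ?_
  have := key g⁻¹ (g • x) (g • y)
  rwa [inv_smul_smul, inv_smul_smul] at this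

/-- fixed points between fixed points -/
theorem fix_btw (hadj : ∀ (γ : Γ) (x y : V), T.Adj x y → T.Adj (γ • x) (γ • y)) (hT : T.IsTree)
    {h : Γ} {u v w : V} (hu : h • u = u) (hw : h • w = w) (hb : Btw T u v w) : h • v = v := by
  have a1 := ds hadj hT h u v
  have a2 := ds hadj hT h v w
  rw [hu] at a1
  rw [hw] at a2
  have a3 := fp hT v (h • v) u w
  unfold Btw at hb
  have c1 := dist_comm (G := T) (u := v) (v := u)
  have c2 := dist_comm (G := T) (u := h • v) (v := u)
  have a4 : T.dist v (h • v) = 0 := by omega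
  exact ((hT.connected.dist_eq_zero_iff).1 a4).symm

/-- the orbit of `x` under the powers of `b` lies on a line -/
def Lin (T : SimpleGraph V) (b : Γ) (x : V) (l : ℕ) : Prop :=
  0 < l ∧ ∀ n : ℤ, T.dist x (b ^ n • x) = n.natAbs * l

theorem Lin.dist (hadj : ∀ (γ : Γ) (x y : V), T.Adj x y → T.Adj (γ • x) (γ • y)) (hT : T.IsTree)
    {b : Γ} {x : V} {l : ℕ} (h : Lin T b x l) (i j : ℤ) :
    T.dist (b ^ i • x) (b ^ j • x) = (j - i).natAbs * l := by
  have h1 := h.2 (j - i)
  rw [← ds hadj hT (b ^ i), smul_smul, ← zpow_add, add_sub_cancel] at h1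
  exact h1

theorem lin_of_two (hadj : ∀ (γ : Γ) (x y : V), T.Adj x y → T.Adj (γ • x) (γ • y)) (hT : T.IsTree)
    {b : Γ} {x : V} (h0 : b • x ≠ x) (h2 : T.dist x (b • b • x) = 2 * T.dist x (b • x)) :
    Lin T b x (T.dist x (b • x)) := by
  have hd : 0 < T.dist x (b • x) := (hT.connected.pos_dist_of_ne (Ne.symm h0))
  have key := geod hT (fun n : ℕ => b ^ n • x) (T.dist x (b • x)) hd
    (fun n => by
      show T.dist (b ^ n • x) (b ^ (n + 1) • x) = _
      rw [pow_succ, mul_smul, ds hadj hT])
    (fun n => by
      show T.dist (b ^ n • x) (b ^ (n + 2) • x) = _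
      rw [pow_add, mul_smul, ds hadj hT, pow_two, mul_smul, h2])
  have key' : ∀ n : ℕ, T.dist x (b ^ n • x) = n * T.dist x (b • x) := fun n => by
    have := (key n).1
    simpa using this
  refine ⟨hd, fun n => ?_⟩
  rcases Int.natAbs_eq n with h1 | h1
  · nth_rewrite 1 [h1]
    rw [zpow_natCast]
    exact key' _
  · nth_rewrite 1 [h1]
    rw [zpow_neg, zpow_natCast, ← ds hadj hT (b ^ n.natAbs), smul_inv_smul, dist_comm]
    exact key' _

/-- an automorphism without fixed points which does not invert an edge has an axis -/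
theorem lin_of_nofix (hadj : ∀ (γ : Γ) (x y : V), T.Adj x y → T.Adj (γ • x) (γ • y))
    (hT : T.IsTree) (hinv : ∀ (g : Γ) (u v : V), T.Adj u v → ¬ (g • u = v ∧ g • v = u))
    {b : Γ} (hb : ∀ x : V, b • x ≠ x) : ∃ (x : V) (l : ℕ), Lin T b x l := by
  classical
  have hne : Nonempty V := hT.connected.nonempty
  obtain ⟨x, hx⟩ : ∃ x : V, ∀ y : V, T.dist x (b • x) ≤ T.dist y (b • y) :=
    ⟨Function.argmin (fun y : V => T.dist y (b • y)),
      fun y => Function.argmin_le (fun y : V => T.dist y (b • y)) y⟩
  refine ⟨x, _, lin_of_two hadj hT (hb x) ?_⟩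
  obtain ⟨w, hw, hw'⟩ := toward hT (y := x) (z := b • x) (hb x)
  obtain ⟨u, hu, hu'⟩ := toward hT (y := b • x) (z := x) (hb x).symm
  have hu2 : T.Adj (b • x) (b • u) := hadj b _ _ hu
  have hu3 : T.dist (b • b • x) (b • x) = T.dist (b • b • x) (b • u) + 1 := by
    rw [ds hadj hT, ds hadj hT]
    exact hu'
  by_cases hwu : w = b • u
  · exfalso
    subst hwu
    have a1 := fp hT u (b • u) x (b • x)
    have a2 := hx u
    have a3 : T.dist u x = 1 := dist_eq_one_iff_adj.2 hu.symm
    have a4 : T.dist (b • u) (b • x) = 1 := dist_eq_one_iff_adj.2 hu2.symm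
    have c1 := dist_comm (G := T) (u := u) (v := b • x)
    have c2 := dist_comm (G := T) (u := b • u) (v := x)
    have c3 := dist_comm (G := T) (u := x) (v := b • x)
    have a5 : T.dist x (b • x) = 1 := by omega
    have a6 : T.dist x (b • u) = 0 := by omega
    have a7 : T.dist (b • x) u = 0 := by omega
    have a8 := (hT.connected.dist_eq_zero_iff).1 a6
    have a9 := (hT.connected.dist_eq_zero_iff).1 a7
    refine hinv b x (b • x) (dist_eq_one_iff_adj.1 a5) ⟨rfl, ?_⟩
    rw [a9]
    exact a8.symm
  · have h1 : T.dist x (b • u) = T.dist x (b • x) + 1 := by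
      rcases hT.dist_eq_dist_add_one_of_adj x hu2 with h2 | h2
      · exact absurd (unique_toward hT hw hu2 hw' h2) hwu
      · exact h2
    have h2 := cut hT (y := b • b • x) hu2 hu3 _ x rfl (by
      rw [dist_comm (u := b • u), dist_comm (u := b • x)]
      exact h1)
    have c1 := dist_comm (G := T) (u := b • b • x) (v := x)
    have c2 := dist_comm (G := T) (u := b • x) (v := x)
    have c3 : T.dist (b • b • x) (b • x) = T.dist (b • x) x := ds hadj hT _ _ _
    omega

end action

end Pool.Agent.H6.GB
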