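import Pool.Agent.H6.GB.Geo

/-!
# Lines in trees
-/

set_option autoImplicit false

namespace Pool.Agent.H6.GB

open SimpleGraph

section action

variable {V : Type} {T : SimpleGraph V} {Γ : Type} [Group Γ] [MulAction Γ V]

/-- geodesics between points near the ends of an axis pass through the middle -/
theorem near (hadj : ∀ (γ : Γ) (x y : V), T.Adj x y → T.Adj (γ • x) (γ • y)) (hT : T.IsTree)
    {b : Γ} {x p q : V} {l D n : ℕ} (h : Lin T b x l)
    (hp : T.dist p (b ^ (-(n : ℤ)) • x) ≤ D) (hq : T.dist q (b ^ (n : ℤ) • x) ≤ D)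
    (hD : D < n * l) : Btw T p x q := by
  have e1 := h.2 (n : ℤ)
  have e2 := h.2 (-(n : ℤ))
  have e3 := h.dist hadj hT (-(n : ℤ)) (n : ℤ)
  rw [Int.natAbs_natCast] at e1
  rw [Int.natAbs_neg, Int.natAbs_natCast] at e2
  have e4 : ((n : ℤ) - -(n : ℤ)).natAbs = 2 * n := by omega
  rw [e4] at e3
  have e5 : 2 * n * l = n * l + n * l := by ring
  have a1 := fp hT p x (b ^ (-(n : ℤ)) • x) (b ^ (n : ℤ) • x)
  have a2 := fp hT q x p (b ^ (n : ℤ) • x)
  have a3 := tri hT p x q
  have c1 := dist_comm (G := T) (u := q) (v := x)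
  have c2 := dist_comm (G := T) (u := q) (v := p)
  have c3 := dist_comm (G := T) (u := p) (v := x)
  unfold Btw
  omega

/-- an isometric embedding of the line -/
def Line (T : SimpleGraph V) (f : ℤ → V) : Prop := ∀ i j : ℤ, T.dist (f i) (f j) = (j - i).natAbs

/-- `e` translates the line `f` by `t` -/
def Tr (e : Γ) (f : ℤ → V) (t : ℤ) : Prop := t ≠ 0 ∧ ∀ i : ℤ, e • f i = f (i + t)

theorem Tr.zpow {e : Γ} {f : ℤ → V} {t : ℤ} (h : Tr e f t) (n i : ℤ) :
    e ^ n • f i = f (i + n * t) := by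
  induction n using Int.induction_on generalizing i with
  | zero => simp
  | succ n ih =>
    rw [zpow_add_one, mul_smul, h.2, ih]
    congr 1
    ring
  | pred n ih =>
    have h1 : e⁻¹ • f i = f (i - t) := by
      rw [inv_smul_eq_iff, h.2]
      congr 1
      ring
    rw [zpow_sub_one, mul_smul, h1, ih]
    congr 1
    ring

theorem Tr.pow {e : Γ} {f : ℤ → V} {t : ℤ} (h : Tr e f t) {n : ℤ} (hn : n ≠ 0) :
    Tr (e ^ n) f (n * t) :=
  ⟨mul_ne_zero hn h.1, fun i => h.zpow n i⟩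

theorem Tr.lin {e : Γ} {f : ℤ → V} {t : ℤ} (hf : Line T f) (h : Tr e f t) (i : ℤ) :
    Lin T e (f i) t.natAbs := by
  refine ⟨Int.natAbs_pos.2 h.1, fun n => ?_⟩
  rw [h.zpow, hf, ← Int.natAbs_mul]
  congr 1
  ring

theorem Lin.nofix (hadj : ∀ (γ : Γ) (x y : V), T.Adj x y → T.Adj (γ • x) (γ • y))
    (hT : T.IsTree) {e : Γ} {x : V} {l : ℕ} (h : Lin T e x l) (v : V) : e • v ≠ v := by
  intro hv
  have h1 : ∀ n : ℕ, e ^ n • v = v := by
    intro n
    induction n with
    | zero => simp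
    | succ n ih => rw [pow_succ, mul_smul, hv, ih]
  have h2 := h.2 ((2 * T.dist x v + 1 : ℕ) : ℤ)
  rw [Int.natAbs_natCast, zpow_natCast] at h2
  have h3 := tri hT x v (e ^ (2 * T.dist x v + 1) • x)
  have h4 : T.dist v (e ^ (2 * T.dist x v + 1) • x) = T.dist v x := by
    nth_rewrite 1 [← h1 (2 * T.dist x v + 1)]
    exact ds hadj hT _ _ _
  have c1 := dist_comm (G := T) (u := x) (v := v)
  have h5 : 2 * T.dist x v + 1 ≤ (2 * T.dist x v + 1) * l := Nat.le_mul_of_pos_right _ h.1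
  omega

theorem Tr.nofix (hadj : ∀ (γ : Γ) (x y : V), T.Adj x y → T.Adj (γ • x) (γ • y))
    (hT : T.IsTree) {e : Γ} {f : ℤ → V} {t : ℤ} (hf : Line T f) (h : Tr e f t) (v : V) :
    e • v ≠ v := (h.lin hf 0).nofix hadj hT v

theorem Line.smul (hadj : ∀ (γ : Γ) (x y : V), T.Adj x y → T.Adj (γ • x) (γ • y))
    (hT : T.IsTree) {f : ℤ → V} (hf : Line T f) (g : Γ) : Line T (fun i => g • f i) := by
  intro i j
  show T.dist (g • f i) (g • f j) = _
  rw [ds hadj hT]
  exact hf i j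

theorem Tr.conj {e : Γ} {f : ℤ → V} {t : ℤ} (h : Tr e f t) (g : Γ) :
    Tr (g * e * g⁻¹) (fun i => g • f i) t := by
  refine ⟨h.1, fun i => ?_⟩
  show (g * e * g⁻¹) • g • f i = g • f (i + t)
  rw [smul_smul, inv_mul_cancel_right, mul_smul, h.2]

/-- the axis of an automorphism is a line -/
theorem line_of_lin (hadj : ∀ (γ : Γ) (x y : V), T.Adj x y → T.Adj (γ • x) (γ • y))
    (hT : T.IsTree) {b : Γ} {x : V} {l : ℕ} (h : Lin T b x l) :
    ∃ f : ℤ → V, Line T f ∧ Tr b f l := by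
  obtain ⟨w, hw⟩ := hT.connected.exists_walk_length_eq_dist x (b • x)
  have hl : w.length = l := by
    rw [hw]
    have := h.2 1
    simpa using this
  have hlpos : (0 : ℤ) < l := by exact_mod_cast h.1
  let f : ℤ → V := fun i => b ^ (i / l) • w.getVert (i % l).toNat
  have hstep0 : ∀ k : ℕ, k < l → T.dist (w.getVert k) (w.getVert (k + 1)) ≤ 1 := by
    intro k hk
    exact (dist_eq_one_iff_adj.2 (w.adj_getVert_succ (by omega))).le
  have htr : ∀ i : ℤ, b • f i = f (i + l) := by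
    intro i
    show b • (b ^ (i / l) • w.getVert (i % l).toNat) =
      b ^ ((i + l) / l) • w.getVert ((i + l) % l).toNat
    rw [Int.add_emod_right, Int.add_ediv_of_dvd_right (dvd_refl _), Int.ediv_self hlpos.ne',
      add_comm (i / (l : ℤ)) 1, zpow_add, zpow_one, mul_smul]
  have hstep : ∀ i : ℤ, T.dist (f i) (f (i + 1)) ≤ 1 := by
    intro i
    have hr0 : 0 ≤ i % (l : ℤ) := Int.emod_nonneg _ hlpos.ne'
    have hr1 : i % (l : ℤ) < l := Int.emod_lt_of_pos _ hlpos
    have h1 : f (i + 1) = b ^ (i / l) • w.getVert ((i % l).toNat + 1) := by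
      show b ^ ((i + 1) / l) • w.getVert ((i + 1) % l).toNat = _
      have hi : (l : ℤ) * (i / l) + i % l = i := Int.mul_ediv_add_emod i l
      by_cases hc : i % (l : ℤ) + 1 < l
      · obtain ⟨e1, e2⟩ : (i + 1) / (l : ℤ) = i / l ∧ (i + 1) % (l : ℤ) = i % l + 1 :=
          (Int.ediv_emod_unique hlpos).2 ⟨by linarith, by omega, hc⟩
        rw [e1, e2]
        congr 2
        omega
      · have hc' : i % (l : ℤ) + 1 = l := by omega
        obtain ⟨e1, e2⟩ : (i + 1) / (l : ℤ) = i / l + 1 ∧ (i + 1) % (l : ℤ) = 0 :=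
          (Int.ediv_emod_unique hlpos).2 ⟨by linarith, le_refl _, hlpos⟩
        rw [e1, e2, show (i % (l : ℤ)).toNat + 1 = w.length by omega, Walk.getVert_length,
          Int.toNat_zero, Walk.getVert_zero, zpow_add, zpow_one, mul_smul]
    rw [h1]
    show T.dist (b ^ (i / l) • w.getVert (i % l).toNat) _ ≤ 1
    rw [ds hadj hT]
    exact hstep0 _ (by omega)
  have hup : ∀ (i : ℤ) (n : ℕ), T.dist (f i) (f (i + n)) ≤ n := by
    intro i n
    induction n with
    | zero => simp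
    | succ n ih =>
      have a1 := tri hT (f i) (f (i + n)) (f (i + (n + 1 : ℕ)))
      have a2 := hstep (i + n)
      have a3 : i + (n + 1 : ℕ) = i + n + 1 := by push_cast; ring
      rw [a3] at a1 ⊢
      omega
  have hup' : ∀ i j : ℤ, T.dist (f i) (f j) ≤ (j - i).natAbs := by
    intro i j
    rcases le_total i j with hij | hij
    · have := hup i (j - i).natAbs
      rwa [show i + ((j - i).natAbs : ℤ) = j by omega] at this
    · have := hup j (j - i).natAbs
      rwa [show j + ((j - i).natAbs : ℤ) = i by omega, dist_comm] at this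
  have hpt : ∀ k : ℤ, f (k * l) = b ^ k • x := by
    intro k
    show b ^ (k * l / l) • w.getVert (k * l % l).toNat = _
    rw [Int.mul_ediv_cancel _ hlpos.ne', Int.mul_emod_left, Int.toNat_zero, Walk.getVert_zero]
  have hlow : ∀ i j : ℤ, i ≤ j → (j - i).natAbs ≤ T.dist (f i) (f j) := by
    intro i j hij
    let K : ℕ := i.natAbs + j.natAbs
    have hK : (K : ℤ) ≤ K * l := by
      have : (1 : ℤ) ≤ l := hlpos
      nlinarith [Int.natCast_nonneg K]
    have hKd : (K : ℤ) = i.natAbs + j.natAbs := by push_cast [K]; rfl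
    have e1 := h.dist hadj hT (-(K : ℤ)) (K : ℤ)
    rw [← hpt, ← hpt] at e1
    have e4 : ((K : ℤ) - -(K : ℤ)).natAbs = 2 * K := by omega
    rw [e4] at e1
    have e5 : (2 * K * l : ℕ) = ((K : ℤ) * l).natAbs + ((K : ℤ) * l).natAbs := by
      rw [Int.natAbs_mul, Int.natAbs_natCast, Int.natAbs_natCast]
      ring
    rw [e5, neg_mul] at e1
    have a1 := tri hT (f (-(K * l))) (f i) (f (K * l))
    have a2 := tri hT (f i) (f j) (f (K * l))
    have a3 := hup' (-(K * l)) i
    have a4 := hup' j (K * l)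
    omega
  refine ⟨f, ?_, by exact_mod_cast hlpos.ne', htr⟩
  intro i j
  refine le_antisymm (hup' i j) ?_
  rcases le_total i j with hij | hij
  · exact hlow i j hij
  · rw [dist_comm]
    have := hlow j i hij
    omega

/-- points between points of a line are on the line -/
theorem btw_line (hT : T.IsTree) {f : ℤ → V} (hf : Line T f) {i j : ℤ} {x : V}
    (h : Btw T (f i) x (f j)) : ∃ k, x = f k := by
  wlog hij : i ≤ j generalizing i j
  · exact this h.symm (le_of_not_ge hij)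
  refine ⟨i + T.dist (f i) x, ?_⟩
  have a1 := fp hT x (f (i + T.dist (f i) x)) (f i) (f j)
  have e1 := hf i j
  have e2 := hf i (i + T.dist (f i) x)
  have e3 := hf (i + T.dist (f i) x) j
  have c1 := dist_comm (G := T) (u := f i) (v := x)
  have c2 := dist_comm (G := T) (u := f i) (v := f (i + T.dist (f i) x))
  unfold Btw at h
  have a4 : T.dist x (f (i + T.dist (f i) x)) = 0 := by omega
  exact (hT.connected.dist_eq_zero_iff).1 a4

/-- the line preserved by a translation is unique -/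
theorem Tr.unique (hadj : ∀ (γ : Γ) (x y : V), T.Adj x y → T.Adj (γ • x) (γ • y))
    (hT : T.IsTree) {e : Γ} {f f' : ℤ → V} {t t' : ℤ} (hf : Line T f) (hf' : Line T f')
    (h : Tr e f t) (h' : Tr e f' t') (j : ℤ) : ∃ k, f' j = f k := by
  have h1 := h'.lin hf' j
  have h2 := near hadj hT (p := e ^ (-((T.dist (f 0) (f' j) + 1 : ℕ) : ℤ)) • f 0)
    (q := e ^ ((T.dist (f 0) (f' j) + 1 : ℕ) : ℤ) • f 0) (D := T.dist (f 0) (f' j))
    (n := T.dist (f 0) (f' j) + 1) h1 (by rw [ds hadj hT]) (by rw [ds hadj hT])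
    (by have := h1.1; nlinarith)
  rw [h.zpow, h.zpow] at h2
  exact btw_line hT hf h2

/-- an automorphism which fixes an orbit fixes the axis -/
theorem Lin.fixed (hadj : ∀ (γ : Γ) (x y : V), T.Adj x y → T.Adj (γ • x) (γ • y))
    (hT : T.IsTree) {b h : Γ} {x y : V} {l : ℕ} (hx : Lin T b x l)
    (hy : ∀ n : ℤ, h • b ^ n • y = b ^ n • y) : h • x = x := by
  have h2 := near hadj hT (p := b ^ (-((T.dist y x + 1 : ℕ) : ℤ)) • y)
    (q := b ^ ((T.dist y x + 1 : ℕ) : ℤ) • y) (D := T.dist y x)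
    (n := T.dist y x + 1) hx (by rw [ds hadj hT]) (by rw [ds hadj hT])
    (by have := hx.1; nlinarith)
  exact fix_btw hadj hT (hy _) (hy _) h2

/-- the elements which preserve the line `f` -/
def Pr (Γ : Type) [Group Γ] [MulAction Γ V] (f : ℤ → V) : Subgroup Γ where
  carrier := {g | (∀ i, ∃ j, g • f i = f j) ∧ ∀ i, ∃ j, g⁻¹ • f i = f j}
  one_mem' := ⟨fun i => ⟨i, one_smul _ _⟩, fun i => ⟨i, by rw [inv_one, one_smul]⟩⟩
  mul_mem' := by
    rintro a b ⟨ha, ha'⟩ ⟨hb, hb'⟩
    refine ⟨fun i => ?_, fun i => ?_⟩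
    · obtain ⟨j, hj⟩ := hb i
      obtain ⟨k, hk⟩ := ha j
      exact ⟨k, by rw [mul_smul, hj, hk]⟩
    · obtain ⟨j, hj⟩ := ha' i
      obtain ⟨k, hk⟩ := hb' j
      exact ⟨k, by rw [mul_inv_rev, mul_smul, hj, hk]⟩
  inv_mem' := by
    rintro a ⟨ha, ha'⟩
    exact ⟨ha', by simpa using ha⟩

theorem mem_Pr {f : ℤ → V} {g : Γ} :
    g ∈ Pr Γ f ↔ (∀ i, ∃ j, g • f i = f j) ∧ ∀ i, ∃ j, g⁻¹ • f i = f j := Iff.rfl

theorem Tr.mem_Pr {e : Γ} {f : ℤ → V} {t : ℤ} (h : Tr e f t) : e ∈ Pr Γ f := by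
  refine ⟨fun i => ⟨i + t, h.2 i⟩, fun i => ⟨i - t, ?_⟩⟩
  rw [inv_smul_eq_iff, h.2]
  congr 1
  ring

/-- an automorphism without fixed points which preserves a line translates it -/
theorem tr_of_pres (hadj : ∀ (γ : Γ) (x y : V), T.Adj x y → T.Adj (γ • x) (γ • y))
    (hT : T.IsTree) (hinv : ∀ (g : Γ) (u v : V), T.Adj u v → ¬ (g • u = v ∧ g • v = u))
    {e : Γ} {f : ℤ → V} (hf : Line T f) (he : ∀ i, ∃ j, e • f i = f j)
    (hn : ∀ v : V, e • v ≠ v) : ∃ t, Tr e f t := by
  choose φ hφ using he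
  have hd : ∀ i j : ℤ, (φ j - φ i).natAbs = (j - i).natAbs := by
    intro i j
    rw [← hf, ← hf, ← hφ, ← hφ, ds hadj hT]
  have h01 := hd 0 1
  have hne : ∀ i, φ i ≠ i := by
    intro i hi
    exact hn (f i) (by rw [hφ, hi])
  by_cases hc : φ 1 = φ 0 + 1
  · refine ⟨φ 0, fun h0 => hne 0 h0, fun i => ?_⟩
    have h0i := hd 0 i
    have h1i := hd 1 i
    rw [hφ]
    congr 1
    omega
  · exfalso
    have hc' : φ 1 = φ 0 - 1 := by omega
    have hall : ∀ i, φ i = φ 0 - i := by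
      intro i
      have h0i := hd 0 i
      have h1i := hd 1 i
      omega
    rcases Int.even_or_odd' (φ 0) with ⟨m, hm | hm⟩
    · exact hne m (by rw [hall]; omega)
    · have e1 : e • f m = f (m + 1) := by
        rw [hφ, hall]
        congr 1
        omega
      have e2 : e • f (m + 1) = f m := by
        rw [hφ, hall]
        congr 1
        omega
      refine hinv e (f m) (f (m + 1)) ?_ ⟨e1, e2⟩
      rw [← dist_eq_one_iff_adj, hf]
      omega

/-- common fixed points -/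
theorem common (hadj : ∀ (γ : Γ) (x y : V), T.Adj x y → T.Adj (γ • x) (γ • y))
    (hT : T.IsTree) {H : Subgroup Γ} {b : Γ} (hb : ∀ h ∈ H, b⁻¹ * h * b ∈ H)
    {v y : V} (hv : ∀ h ∈ H, h • v = v) (hy : b • y = y) :
    ∃ u : V, (∀ h ∈ H, h • u = u) ∧ b • u = u := by
  classical
  let S : Set V := {u | ∀ h ∈ H, h • u = u}
  have hne : Nonempty S := ⟨⟨v, hv⟩⟩
  obtain ⟨⟨u, huS⟩, hu⟩ : ∃ x : S, ∀ z : S, T.dist y x ≤ T.dist y z :=
    ⟨Function.argmin (fun z : S => T.dist y z),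
      fun z => Function.argmin_le (fun z : S => T.dist y z) z⟩
  refine ⟨u, huS, ?_⟩
  by_contra hbu
  have hbS : b • u ∈ S := by
    intro h hh
    have h1 := huS _ (hb h hh)
    rw [mul_smul, mul_smul, inv_smul_eq_iff] at h1
    exact h1
  have hdb : T.dist y (b • u) = T.dist y u := by
    nth_rewrite 1 [← hy]
    exact ds hadj hT _ _ _
  obtain ⟨u1, hu1, hd1⟩ := toward hT (y := b • u) (z := u) (Ne.symm hbu)
  have hu1S : u1 ∈ S := by
    intro h hh
    refine fix_btw hadj hT (huS h hh) (hbS h hh) ?_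
    unfold Btw
    have a1 : T.dist u u1 = 1 := dist_eq_one_iff_adj.2 hu1
    have c1 := dist_comm (G := T) (u := u) (v := b • u)
    have c2 := dist_comm (G := T) (u := u1) (v := b • u)
    omega
  have h2 := hu ⟨u1, hu1S⟩
  simp only at h2
  have h3 : T.dist y u1 = T.dist y u + 1 := by
    rcases hT.dist_eq_dist_add_one_of_adj y hu1 with h3 | h3
    · omega
    · exact h3
  have h4 := cut hT hu1.symm h3 _ (b • u) rfl (by
    rw [dist_comm (u := u), dist_comm (u := u1)]
    exact hd1)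
  omega

end action

end Pool.Agent.H6.GB
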