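import Pool.Agent.H6.GB.Basic

/-! # Cliques with at least five pendant edges: the running time is at least linear

`k - 5` vertices are full; on the other vertices `0, 1, 2, …` there is a chain of copies of `K_5` on
`{3 i, …, 3 i + 4}`, in which the edges `(3 i, 3 i + 1)` are added one after the other. -/

set_option autoImplicit false

namespace Pool.Agent.H6.GB

open Finset

variable {k m : ℕ} {V : Type} [Fintype V] {H : SimpleGraph V} {u : V} {K : Finset V}

/-- the edges of the chain after `t` rounds -/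
def A (t a b : ℕ) : Prop := a < b ∧ b ≤ 3 * (a / 3) + 4 ∧ ¬ (a % 3 = 0 ∧ b = a + 1 ∧ t < a / 3)

/-- The graph after `t` rounds: the vertices from `L` on are full. -/
def Gt (n L t : ℕ) : SimpleGraph (Fin n) where
  Adj a b := a ≠ b ∧ (L ≤ a.val ∨ L ≤ b.val ∨ A t a b ∨ A t b a)
  symm := ⟨fun a b h => ⟨h.1.symm, by have := h.2; tauto⟩⟩
  loopless := ⟨fun a h => h.1 rfl⟩

theorem five {t a b c d e : ℕ} (hab : a < b) (h1 : c < d) (h2 : d < e) (_n0 : ¬ A t a b)
    (_ac : A t a c ∨ A t c a) (_ad : A t a d ∨ A t d a) (ae : A t a e ∨ A t e a)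
    (bc : A t b c ∨ A t c b) (bd : A t b d ∨ A t d b) (be : A t b e ∨ A t e b)
    (cd : A t c d ∨ A t d c) (ce : A t c e ∨ A t e c) (de : A t d e ∨ A t e d) :
    A (t + 1) a b := by
  unfold A at *
  omega

theorem step_Gt (h : Str k m H u K) (hk : 6 ≤ k) (hm : 5 ≤ m) {n L : ℕ} (hn : k + m ≤ n)
    (hL : L + (k - 5) = n) (t : ℕ) : step H (Gt n L t) = Gt n L (t + 1) := by
  classical
  have key : ∀ a b : Fin n, a < b → (step H (Gt n L t)).Adj a b → (Gt n L (t + 1)).Adj a b := by
    intro a b hlt h1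
    by_cases h0 : (Gt n L t).Adj a b
    · refine ⟨h0.1, ?_⟩
      have := h0.2
      unfold A at *
      omega
    obtain ⟨hab, f, hf, x, y, hxy, hx, hy⟩ := ((step_adj _ _ a b).1 h1).resolve_left h0
    have n1 : a.val < L := by
      by_contra e; exact h0 ⟨hab, Or.inl (by omega)⟩
    have n2 : b.val < L := by
      by_contra e; exact h0 ⟨hab, Or.inr (Or.inl (by omega))⟩
    have n3 : ¬ A t a b := fun e => h0 ⟨hab, Or.inr (Or.inr (Or.inl e))⟩
    have hu : L ≤ (f u).val := by
      by_contra hu
      push Not at hu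
      -- the endpoint of `ab` other than `f u`
      obtain ⟨z, hz⟩ : ∃ z : ℕ, ∀ v : V, s(f u, f v) = s(a, b) → (f v).val = z := by
        by_cases e : f u = a
        · refine ⟨b.val, fun v hv => ?_⟩
          rw [e] at hv
          rcases Sym2.eq_iff.1 hv with ⟨-, h4⟩ | ⟨h4, -⟩
          · rw [h4]
          · exact absurd h4 hab
        · refine ⟨a.val, fun v hv => ?_⟩
          rcases Sym2.eq_iff.1 hv with ⟨h4, -⟩ | ⟨-, h4⟩
          · exact absurd h4 e
          · rw [h4]
      have h2 : (univ : Finset V).card ≤ (insert z (Icc (3 * ((f u).val / 3) - 3)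
          (3 * ((f u).val / 3) + 4) ∪ Ico L n)).card := by
        refine card_le_card_of_injOn (fun v => (f v).val) (fun v _ => ?_)
          fun v _ w _ e => f.injective (Fin.ext e)
        simp only [coe_insert, coe_union, coe_Icc, coe_Ico, Set.mem_insert_iff, Set.mem_union,
          Set.mem_Icc, Set.mem_Ico]
        by_cases hv : u = v
        · subst hv; right; left; omega
        have hvn := (f v).2
        rcases hf u v ((h.2.2.2 u v).2 ⟨hv, Or.inl rfl⟩) with h3 | h3
        · have := h3.2
          unfold A at this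
          omega
        · exact Or.inl (hz v h3)
      have h3 := card_insert_le z (Icc (3 * ((f u).val / 3) - 3)
          (3 * ((f u).val / 3) + 4) ∪ Ico L n)
      have h4 := card_union_le (Icc (3 * ((f u).val / 3) - 3) (3 * ((f u).val / 3) + 4)) (Ico L n)
      rw [card_univ, h.2.2.1] at h2
      rw [Nat.card_Icc, Nat.card_Ico] at h4
      omega
    have xu : x ≠ u := fun e => by
      rw [← e, hx] at hu; omega
    have yu : y ≠ u := fun e => by
      rw [← e, hy] at hu; omega
    obtain ⟨hxK, hyK⟩ : x ∈ K ∧ y ∈ K := by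
      have := ((h.2.2.2 x y).1 hxy).2; tauto
    -- three further vertices of the chain
    have hS0 : 3 ≤ (((((K.erase u).erase x).erase y).map f).filter (fun z => z.val < L)).card := by
      have c1 : ((((K.erase u).erase x).erase y).map f).card = k - 3 := by
        rw [card_map, card_erase_of_mem (by simp [hyK, yu, hxy.ne']),
          card_erase_of_mem (by simp [hxK, xu]), card_erase_of_mem h.1, h.2.1]
        omega
      have c2 : ((((K.erase u).erase x).erase y).map f).filter (fun z => ¬ z.val < L) ⊆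
          ((univ.filter (fun z : Fin n => L ≤ z.val)).erase (f u)) := by
        intro z hz
        obtain ⟨hz1, hz2⟩ := mem_filter.1 hz
        obtain ⟨w, hw, rfl⟩ := mem_map.1 hz1
        simp only [mem_erase] at hw
        refine mem_erase.2 ⟨fun e => hw.2.2.1 (f.injective e), mem_filter.2 ⟨mem_univ _, by omega⟩⟩
      have c3 : (univ.filter (fun z : Fin n => L ≤ z.val)).card ≤ k - 5 := by
        have : (univ.filter (fun z : Fin n => L ≤ z.val)).card ≤ (Ico L n).card :=
          card_le_card_of_injOn (fun z => z.val) (fun z hz => by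
            simp only [coe_filter, mem_univ, true_and, Set.mem_ofPred_eq] at hz
            simp only [coe_Ico, Set.mem_Ico]
            exact ⟨hz, z.2⟩) fun z _ w _ e => Fin.ext e
        rw [Nat.card_Ico] at this
        omega
      have c4 := card_le_card c2
      have hfu : f u ∈ univ.filter (fun z : Fin n => L ≤ z.val) := mem_filter.2 ⟨mem_univ _, hu⟩
      rw [card_erase_of_mem hfu] at c4
      have c5 := card_filter_add_card_filter_not (s := (((K.erase u).erase x).erase y).map f)
        (fun z : Fin n => z.val < L)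
      omega
    obtain ⟨S, hSs, hS⟩ := exists_subset_card_eq hS0
    have adj : ∀ z w : V, z ∈ K → w ∈ K → (f z).val < L → (f w).val < L → z ≠ w → w ≠ x → w ≠ y →
        A t (f z) (f w) ∨ A t (f w) (f z) := by
      intro z w hz hw h1 h2 h3 h4 h5
      rcases hf z w ((h.2.2.2 z w).2 ⟨h3, Or.inr (Or.inr ⟨hz, hw⟩)⟩) with h6 | h6
      · rcases h6.2 with h7 | h7 | h7
        · omega
        · omega
        · exact h7
      · rw [← hx, ← hy] at h6
        rcases Sym2.eq_iff.1 h6 with ⟨-, h7⟩ | ⟨-, h7⟩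
        · exact absurd (f.injective h7) h5
        · exact absurd (f.injective h7) h4
    have mem : ∀ i : Fin 3, ∃ z, z ∈ K ∧ (f z).val < L ∧ z ≠ x ∧ z ≠ y ∧
        f z = S.orderEmbOfFin hS i := by
      intro i
      obtain ⟨hz1, hz2⟩ := mem_filter.1 (hSs (S.orderEmbOfFin_mem hS i))
      obtain ⟨z, hz, e⟩ := mem_map.1 hz1
      simp only [mem_erase] at hz
      exact ⟨z, hz.2.2.2, by rw [e]; exact hz2, hz.2.1, hz.1, e⟩
    obtain ⟨c, c1, c2, c3, c4, c5⟩ := mem 0
    obtain ⟨d, d1, d2, d3, d4, d5⟩ := mem 1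
    obtain ⟨e, e1, e2, e3, e4, e5⟩ := mem 2
    have cd : f c < f d := by rw [c5, d5]; exact (S.orderEmbOfFin hS).strictMono (by decide)
    have de : f d < f e := by rw [d5, e5]; exact (S.orderEmbOfFin hS).strictMono (by decide)
    have cd' : c ≠ d := fun h => cd.ne (congrArg f h)
    have de' : d ≠ e := fun h => de.ne (congrArg f h)
    have ce' : c ≠ e := fun h => (cd.trans de).ne (congrArg f h)
    refine ⟨hab, Or.inr (Or.inr (Or.inl ?_))⟩
    subst hx hy
    exact five hlt cd de n3 (adj x c hxK c1 n1 c2 c3.symm c3 c4) (adj x d hxK d1 n1 d2 d3.symm d3 d4)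
      (adj x e hxK e1 n1 e2 e3.symm e3 e4) (adj y c hyK c1 n2 c2 c4.symm c3 c4)
      (adj y d hyK d1 n2 d2 d4.symm d3 d4) (adj y e hyK e1 n2 e2 e4.symm e3 e4)
      (adj c d c1 d1 c2 d2 cd' d3 d4) (adj c e c1 e1 c2 e2 ce' e3 e4) (adj d e d1 e1 d2 e2 de' e3 e4)
  have key2 : ∀ a b : Fin n, a < b → (Gt n L (t + 1)).Adj a b → (step H (Gt n L t)).Adj a b := by
    intro a b hlt h1
    by_cases h0 : (Gt n L t).Adj a b
    · exact le_step _ _ h0
    have hab := h1.1
    have hlt' : a.val < b.val := hlt
    have hb := b.2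
    obtain ⟨ha, hb', hb2⟩ : a.val = 3 * t + 3 ∧ b.val = 3 * t + 4 ∧ b.val < L := by
      have h2 := h1.2
      have h3 : ¬ (L ≤ a.val ∨ L ≤ b.val ∨ A t a b ∨ A t b a) := fun e => h0 ⟨hab, e⟩
      unfold A at h2 h3
      omega
    let Q : Finset (Fin n) := (Ico L n ∪ Icc (3 * t) (3 * t + 4)).attachFin (by
        intro m hm
        simp only [mem_union, mem_Ico, mem_Icc] at hm
        omega)
    have hQm : ∀ z, z ∈ Q ↔ L ≤ z.val ∨ (3 * t ≤ z.val ∧ z.val ≤ 3 * t + 4) := by
      intro z
      have := z.2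
      simp only [Q, mem_attachFin, mem_union, mem_Ico, mem_Icc]
      omega
    have hQ : Q.card = k := by
      rw [card_attachFin, card_union_of_disjoint, Nat.card_Icc, Nat.card_Ico]
      · omega
      · rw [disjoint_left]
        intro z hz
        simp only [mem_Ico, mem_Icc] at hz ⊢
        omega
    obtain ⟨R, hR, hR7⟩ := exists_subset_card_eq (s := Qᶜ) (n := m) (by
      rw [card_compl, hQ, Fintype.card_fin]; omega)
    have hLn : L < n := by omega
    refine add_edge h (Q := Q) (R := R) (q := ⟨L, hLn⟩) ((hQm _).2 (Or.inl le_rfl)) hQ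
      hR7 (disjoint_right.2 fun z hz => mem_compl.1 (hR hz)) hab
      (Or.inl ⟨(hQm _).2 (by omega), (hQm _).2 (by omega)⟩) ?_ ?_
    · intro z hz w hw hzw
      rw [hQm] at hz hw
      have : z.val ≠ w.val := fun e => hzw (Fin.ext e)
      simp only [Gt, Sym2.eq_iff, Fin.ext_iff, A, ne_eq]
      omega
    · intro z hz
      refine Or.inl ⟨fun e => mem_compl.1 (hR hz) ((hQm _).2 (Or.inl (by rw [← e]))), Or.inl le_rfl⟩
  ext a b
  rcases lt_trichotomy a b with hlt | rfl | hlt
  · exact ⟨key a b hlt, key2 a b hlt⟩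
  · simp
  · rw [SimpleGraph.adj_comm, (Gt n L (t + 1)).adj_comm]
    exact ⟨key b a hlt, key2 b a hlt⟩

theorem M_ge_linear (h : Str k m H u K) (hk : 6 ≤ k) (hm : 5 ≤ m) {n : ℕ} (hn : k + m ≤ n) :
    (n + 3 - k) / 3 ≤ M H n := by
  set L := n - (k - 5) with hLdef
  have hL : L + (k - 5) = n := by omega
  have h1 : ∀ t, (step H)^[t] (Gt n L 0) = Gt n L t := by
    intro t
    induction t with
    | zero => rfl
    | succ t ih => rw [Function.iterate_succ_apply', ih, step_Gt h hk hm hn hL]
  refine le_trans ?_ (le_ciSup (f := fun G => tau H G) (Set.finite_range _).bddAbove (Gt n L 0))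
  refine le_csInf ⟨n, ?_⟩ fun t ht => ?_
  · simp only [Set.mem_ofPred_eq, h1]
    ext a b
    have := a.2
    have := b.2
    simp only [Gt, A]
    omega
  · simp only [Set.mem_ofPred_eq, h1] at ht
    by_contra hcon
    have hlt : 3 * t + 4 < L := by omega
    have h2 : (Gt n L (t + 1)).Adj ⟨3 * t + 3, by omega⟩ ⟨3 * t + 4, by omega⟩ := by
      refine ⟨fun e => ?_, Or.inr (Or.inr (Or.inl ?_))⟩
      · have : 3 * t + 3 = 3 * t + 4 := congrArg Fin.val e
        omega
      · change A (t + 1) (3 * t + 3) (3 * t + 4)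
        unfold A
        omega
    rw [← ht] at h2
    have h3 : L ≤ 3 * t + 3 ∨ L ≤ 3 * t + 4 ∨ A t (3 * t + 3) (3 * t + 4) ∨
      A t (3 * t + 4) (3 * t + 3) := h2.2
    unfold A at h3
    omega

end Pool.Agent.H6.GB
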