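import Pool.Agent.H6.GB.Com
import Pool.Agent.H6.VF.Core
import Pool.Graph.R_pool_sql_team_seeded_707910d6.T2H35.FJT.Main

/-!
# Kernels which act on trees with commensurable polycyclic stabilizers
-/

set_option autoImplicit false

namespace Pool.Agent.H6.GB

open SimpleGraph
open scoped commutatorElement
open Pool.Agent.N77.CP (Csd Mx TF VCen SL mem_map_conj abExt)
open Pool.Agent.Y110.FJ (ClosedE)
open Pool.Agent.R684.FP (FbC)
open Pool.Agent.H6.VF (Ds Ds_eq Ds_mono Ds_le)

theorem Ds_map {G H : Type} [Group G] [Group H] (f : H →* G) (K : Subgroup H) : ∀ n : ℕ,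
    (Ds K n).map f = Ds (K.map f) n
  | 0 => rfl
  | n + 1 => by
    show (⁅Ds K n, Ds K n⁆).map f = ⁅Ds (K.map f) n, Ds (K.map f) n⁆
    rw [Subgroup.map_commutator, Ds_map f K n]

section line

variable {V : Type} {T : SimpleGraph V} {Γ : Type} [Group Γ] [MulAction Γ V]

theorem iso_line (hadj : ∀ (γ : Γ) (x y : V), T.Adj x y → T.Adj (γ • x) (γ • y))
    (hT : T.IsTree) {f : ℤ → V} (hf : Line T f) {g : Γ} (hg : g ∈ Pr Γ f) :
    ∃ a ε : ℤ, ε * ε = 1 ∧ ∀ i, g • f i = f (a + ε * i) := by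
  choose φ hφ using hg.1
  have hd : ∀ i j : ℤ, (φ j - φ i).natAbs = (j - i).natAbs := by
    intro i j
    rw [← hf, ← hf, ← hφ, ← hφ, ds hadj hT]
  have h01 := hd 0 1
  by_cases hc : φ 1 = φ 0 + 1
  · refine ⟨φ 0, 1, by norm_num, fun i => ?_⟩
    have h0i := hd 0 i
    have h1i := hd 1 i
    rw [hφ]
    congr 1
    omega
  · refine ⟨φ 0, -1, by norm_num, fun i => ?_⟩
    have h0i := hd 0 i
    have h1i := hd 1 i
    rw [hφ]
    congr 1
    omega

theorem ds_line (hadj : ∀ (γ : Γ) (x y : V), T.Adj x y → T.Adj (γ • x) (γ • y))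
    (hT : T.IsTree) {f : ℤ → V} (hf : Line T f) (h : ∀ g : Γ, g ∈ Pr Γ f) :
    Ds (⊤ : Subgroup Γ) 2 ≤ MulAction.stabilizer Γ (f 0) := by
  let Tp : Subgroup Γ :=
    { carrier := {g | ∃ a : ℤ, ∀ i, g • f i = f (i + a)}
      one_mem' := ⟨0, fun i => by rw [one_smul, add_zero]⟩
      mul_mem' := by
        rintro x y ⟨a, ha⟩ ⟨b, hb⟩
        refine ⟨b + a, fun i => ?_⟩
        rw [mul_smul, hb, ha]
        congr 1
        ring
      inv_mem' := by
        rintro x ⟨a, ha⟩
        refine ⟨-a, fun i => ?_⟩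
        rw [inv_smul_eq_iff, ha]
        congr 1
        ring }
  have h1 : Ds (⊤ : Subgroup Γ) 1 ≤ Tp := by
    show ⁅(⊤ : Subgroup Γ), (⊤ : Subgroup Γ)⁆ ≤ Tp
    rw [Subgroup.commutator_le]
    intro g _ k _
    obtain ⟨a, ε, hε, hg⟩ := iso_line hadj hT hf (h g)
    obtain ⟨b, η, hη, hk⟩ := iso_line hadj hT hf (h k)
    have hg' : ∀ i, g⁻¹ • f i = f (ε * (i - a)) := by
      intro i
      rw [inv_smul_eq_iff, hg]
      congr 1
      linear_combination (a - i) * hε
    have hk' : ∀ i, k⁻¹ • f i = f (η * (i - b)) := by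
      intro i
      rw [inv_smul_eq_iff, hk]
      congr 1
      linear_combination (b - i) * hη
    refine ⟨a + ε * b - b - η * a, fun i => ?_⟩
    rw [commutatorElement_def, mul_smul, mul_smul, mul_smul, hk', hg', hk, hg]
    congr 1
    linear_combination (η * (η * (i - b) - a)) * hε + (i - b) * hη
  have h2 : ⁅Tp, Tp⁆ ≤ MulAction.stabilizer Γ (f 0) := by
    rw [Subgroup.commutator_le]
    rintro g ⟨a, hg⟩ k ⟨b, hk⟩
    have hg' : ∀ i, g⁻¹ • f i = f (i - a) := by
      intro i
      rw [inv_smul_eq_iff, hg]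
      congr 1
      ring
    have hk' : ∀ i, k⁻¹ • f i = f (i - b) := by
      intro i
      rw [inv_smul_eq_iff, hk]
      congr 1
      ring
    rw [MulAction.mem_stabilizer_iff, commutatorElement_def, mul_smul, mul_smul, mul_smul, hk',
      hg', hk, hg]
    congr 1
    ring
  exact (Subgroup.commutator_mono h1 h1).trans h2

end line

section main

variable {C : ∀ (G : Type) [Group G], Prop} {G : Type} [Group G]

theorem C_quot (hC : ClosedE C) (hM : ∀ (G : Type) [Group G], derivedSeries G 2 = ⊥ → C G)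
    {A B : Subgroup G} [A.Normal] [B.Normal] (hAB : A ≤ B) (hc : ⁅B, B⁆ ≤ A) (hB : C (G ⧸ B)) :
    C (G ⧸ A) := by
  refine abExt hC hM (QuotientGroup.lift A (QuotientGroup.mk' B) (fun x hx =>
    (QuotientGroup.eq_one_iff x).2 (hAB hx))) hB ?_
  intro x y
  obtain ⟨s, rfl⟩ := QuotientGroup.mk_surjective x
  obtain ⟨t, rfl⟩ := QuotientGroup.mk_surjective y
  intro hs ht
  have hs' : s ∈ B := (QuotientGroup.eq_one_iff s).1 hs
  have ht' : t ∈ B := (QuotientGroup.eq_one_iff t).1 ht
  rw [← QuotientGroup.mk_mul, ← QuotientGroup.mk_mul, QuotientGroup.eq_iff_div_mem,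
    div_eq_mul_inv]
  have h1 := hc (Subgroup.commutator_mem_commutator hs' ht')
  rw [commutatorElement_def] at h1
  convert h1 using 1
  group

theorem SL_Ds : ∀ (n : ℕ) (P : Subgroup G), SL n P → Ds P n = ⊥ := by
  have key : ∀ (n : ℕ) (P : Subgroup G), Ds ⁅P, P⁆ n = Ds P (n + 1) := by
    intro n
    induction n with
    | zero => intro P; rfl
    | succ n ih =>
      intro P
      show ⁅Ds ⁅P, P⁆ n, Ds ⁅P, P⁆ n⁆ = ⁅Ds P (n + 1), Ds P (n + 1)⁆
      rw [ih]
  intro n
  induction n with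
  | zero => intro P h; exact h
  | succ n ih =>
    intro P h
    rw [← key]
    exact ih _ h

/-- transport along an isomorphism -/
theorem Mx.equiv {A B : Type} [Group A] [Group B] (e : A ≃* B) (h : Mx A) : Mx B := by
  intro H
  have h1 := h (H.comap e.toMonoidHom)
  rw [← Group.fg_iff_subgroup_fg] at h1 ⊢
  have h2 : (H.comap e.toMonoidHom).map e.toMonoidHom = H :=
    Subgroup.map_comap_eq_self_of_surjective e.surjective H
  have e2 := (H.comap e.toMonoidHom).equivMapOfInjective e.toMonoidHom e.injective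
  rw [h2] at e2
  exact Group.fg_of_surjective (f := e2.toMonoidHom) e2.surjective

/-- the polycyclic group is commensurated by `G` -/
theorem csd_main (N : Subgroup G) [hN : N.Normal]
    {V : Type} [MulAction ↥N V] (T : SimpleGraph V) (hT : T.IsTree)
    (hadj : ∀ (g : ↥N) (u v : V), T.Adj u v → T.Adj (g • u) (g • v))
    (hinv : ∀ (g : ↥N) (u v : V), T.Adj u v → ¬ (g • u = v ∧ g • v = u))
    (hcom : ∀ u v : V, T.Adj u v →
      (MulAction.stabilizer ↥N u).relIndex (MulAction.stabilizer ↥N v) ≠ 0)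
    (o : V) (P : Subgroup ↥N) (hPo : P ≤ MulAction.stabilizer ↥N o)
    (hPi : P.relIndex (MulAction.stabilizer ↥N o) ≠ 0) (hPs : Group.IsSolvable P)
    (hPm : Mx P)
    (hPv : ∀ v : V, P.relIndex (MulAction.stabilizer ↥N v) ≠ 0)
    (hline : ∀ f : ℤ → V, Line T f → ∃ g : ↥N, g ∉ Pr ↥N f) : Csd (P.map N.subtype) := by
  have hP1 : Csd P := by
    have h1 := Pool.Agent.N77.CP.csd_stab T hT (⊤ : Subgroup ↥N) (by
      intro x y hxy
      rw [top_inf_eq, top_inf_eq]
      exact hcom x y hxy) o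
    rw [top_inf_eq] at h1
    exact h1.of_le hPo hPi
  -- a conjugate of `P` by an element of `G`
  have key : ∀ g : G, P.relIndex (P.map (MulAut.conjNormal (H := N) g).toMonoidHom) ≠ 0 := by
    intro g
    let α : ↥N ≃* ↥N := MulAut.conjNormal (H := N) g
    have e : ↥P ≃* ↥(P.map α.toMonoidHom) := P.equivMapOfInjective α.toMonoidHom α.injective
    have h1 : Csd (P.map α.toMonoidHom) := by
      intro n
      have h2 := hP1 (α.symm n)
      have h3 : (P.map α.toMonoidHom).map (MulAut.conj n).toMonoidHom =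
          (P.map (MulAut.conj (α.symm n)).toMonoidHom).map α.toMonoidHom := by
        rw [Subgroup.map_map, Subgroup.map_map]
        congr 1
        ext x
        show ((n * α x * n⁻¹ : ↥N) : G) = ((α (α.symm n * x * (α.symm n)⁻¹) : ↥N) : G)
        rw [map_mul, map_mul, map_inv, MulEquiv.apply_symm_apply]
      rw [h3, Subgroup.relIndex_map_map_of_injective _ _ (f := α.toMonoidHom) α.injective]
      exact h2
    have hs : Group.IsSolvable ↥(P.map α.toMonoidHom) :=
      Group.isSolvable_of_isSolvable_injective (f := e.symm.toMonoidHom) e.symm.injective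
    obtain ⟨v, hv⟩ := com hadj hT hinv hline (P.map α.toMonoidHom) hs (Mx.equiv e hPm) h1
    intro h0
    exact hPv v (Subgroup.relIndex_eq_zero_of_le_right (show P.map α.toMonoidHom ≤ _ from hv) h0)
  intro g
  have h1 := key g⁻¹
  have h2 : (P.map (MulAut.conjNormal (H := N) g⁻¹).toMonoidHom).map N.subtype =
      (P.map N.subtype).map (MulAut.conj g⁻¹).toMonoidHom := by
    rw [Subgroup.map_map, Subgroup.map_map]
    congr 1
  rw [← Subgroup.relIndex_map_map_of_injective P _ N.subtype_injective, h2,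
    ← Pool.Agent.N77.CP.relIndex_conj g, Pool.Agent.N77.CP.map_conj_conj, mul_inv_cancel,
    Pool.Agent.N77.CP.map_conj_one] at h1
  exact h1

theorem main (hC : ClosedE C) (hmet : Pool.Agent.T2H35.FJT.Met C)
    (hF : FbC C) (hL : ∀ m : ℕ, C (Matrix.GeneralLinearGroup (Fin m) ℚ))
    (N : Subgroup G) [N.Normal] (hQ : C (G ⧸ N))
    {V : Type} [MulAction ↥N V] (T : SimpleGraph V) (hT : T.IsTree)
    (hadj : ∀ (g : ↥N) (u v : V), T.Adj u v → T.Adj (g • u) (g • v))
    (hinv : ∀ (g : ↥N) (u v : V), T.Adj u v → ¬ (g • u = v ∧ g • v = u))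
    (hcom : ∀ u v : V, T.Adj u v →
      (MulAction.stabilizer ↥N u).relIndex (MulAction.stabilizer ↥N v) ≠ 0)
    (m : ℕ) (hm : ∀ (v : V) (F : Subgroup ↥N), F ≤ MulAction.stabilizer ↥N v → Finite F →
      Nat.card F ≤ m)
    (o : V) (P : Subgroup ↥N) (hPo : P ≤ MulAction.stabilizer ↥N o)
    (hPi : P.relIndex (MulAction.stabilizer ↥N o) ≠ 0) (hPs : Group.IsSolvable P)
    (hPm : Mx P) (htP : TF P) : C G := by
  have hM : ∀ (G : Type) [Group G], derivedSeries G 2 = ⊥ → C G := by
    intro G _ hG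
    apply hmet
    intro a ha b hb
    have h1 : ⁅a, b⁆ ∈ derivedSeries G 2 := by
      rw [derivedSeries_succ, derivedSeries_one]
      exact Subgroup.commutator_mem_commutator ha hb
    rw [hG, Subgroup.mem_bot, commutatorElement_eq_one_iff_mul_comm] at h1
    exact h1
  have hall : ∀ u v : V,
      (MulAction.stabilizer ↥N u).relIndex (MulAction.stabilizer ↥N v) ≠ 0 :=
    fun u v => Pool.Agent.N24.CM.commensurable hT.1 (fun x => MulAction.stabilizer ↥N x) hcom u v
  have hPv : ∀ v : V, P.relIndex (MulAction.stabilizer ↥N v) ≠ 0 := fun v =>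
    Subgroup.relIndex_ne_zero_trans hPi (hall o v)
  by_cases hline : ∀ f : ℤ → V, Line T f → ∃ g : ↥N, g ∉ Pr ↥N f
  · have hcsd := csd_main N T hT hadj hinv hcom o P hPo hPi hPs hPm hPv hline
    let eP : ↥P ≃* ↥(P.map N.subtype) := P.equivMapOfInjective N.subtype N.subtype_injective
    have hsG : Group.IsSolvable ↥(P.map N.subtype) :=
      Group.isSolvable_of_isSolvable_injective (f := eP.symm.toMonoidHom) eP.symm.injective
    have htG : TF ↥(P.map N.subtype) := by
      intro x n hn hx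
      have h1 := htP (eP.symm x) n hn (by rw [← map_pow, hx, map_one])
      rwa [map_eq_one_iff _ eP.symm.injective] at h1
    obtain ⟨n, hn⟩ := Pool.Agent.N77.CP.exists_SL hsG
    obtain ⟨Q, _, ρ, hCQ, hρ⟩ := Pool.Agent.N77.CP.ind hC hM hL
      (Pool.Agent.N77.CP.HBS.main Pool.Agent.N77.CP.HBX.main) Pool.Agent.N77.CP.MIN.main
      (Pool.Agent.N77.CP.REP.main Pool.Agent.N77.CP.EXT.main) Pool.Agent.N77.CP.ISO.main
      (Pool.Agent.N77.CP.STEP.main Pool.Agent.N77.CP.FC.main) n G (P.map N.subtype) hcsd htG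
      (Mx.equiv eP hPm) hsG hn
    have hZ : C (G ⧸ ρ.ker) := hC.base.of_injective _ _ (QuotientGroup.kerLift ρ)
      (QuotientGroup.kerLift_injective ρ) hCQ
    refine Pool.Agent.T2H35.FJT.main1 hC hmet hF N ρ.ker hQ hZ T hT hadj hinv hall ?_ m hm
    intro z hz v
    refine Subgroup.relIndex_ne_zero_trans (hρ z hz) ?_
    rw [Subgroup.relIndex_map_map_of_injective _ _ N.subtype_injective]
    exact hPv v
  · -- `N` preserves a line
    push Not at hline
    obtain ⟨f, hf, hpr⟩ := hline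
    have h1 := ds_line hadj hT hf hpr
    have h2 : Ds N 2 = (Ds (⊤ : Subgroup ↥N) 2).map N.subtype := by
      rw [Ds_map, ← MonoidHom.range_eq_map, Subgroup.range_subtype]
    have hC1 : C (G ⧸ Ds N 1) := C_quot hC hM (Ds_le N 1) le_rfl hQ
    have hC2 : C (G ⧸ Ds N 2) :=
      C_quot hC hM (A := Ds N 2) (B := Ds N 1) (by
        show ⁅Ds N 1, Ds N 1⁆ ≤ Ds N 1
        rw [Subgroup.commutator_le]
        intro a ha b hb
        exact mul_mem (mul_mem (mul_mem ha hb) (inv_mem ha)) (inv_mem hb)) le_rfl hC1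
    obtain ⟨n, hn⟩ := Pool.Agent.N77.CP.exists_SL hPs
    refine Pool.Agent.H6.VF.main hC hmet hF (Ds N 2) hC2
      ((P ⊓ Ds (⊤ : Subgroup ↥N) 2).map N.subtype) ?_ ?_ n ?_
    · rw [h2]
      exact Subgroup.map_mono inf_le_right
    · rw [h2, Subgroup.relIndex_map_map_of_injective _ _ N.subtype_injective,
        Subgroup.inf_relIndex_right]
      intro h0
      exact hPv (f 0) (Subgroup.relIndex_eq_zero_of_le_right h1 h0)
    · have h3 : Ds (P ⊓ Ds (⊤ : Subgroup ↥N) 2) n = ⊥ := by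
        rw [eq_bot_iff, ← SL_Ds n P hn]
        exact Ds_mono inf_le_left n
      rw [← Ds_map, h3, Subgroup.map_bot]
      exact IsFreeGroup.ofMulEquiv (MulEquiv.ofUnique (M := FreeGroup Empty))

end main

end Pool.Agent.H6.GB
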