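import Pool.Agent.H6.GB.Basic

/-! # The linear upper bound for the running time of a clique with pendant edges -/

set_option autoImplicit false

namespace Pool.Agent.H6.GB

open Finset

variable {k m : ℕ} {V W : Type} [Fintype V] [Fintype W] {H : SimpleGraph V} {u : V} {K : Finset V}

open Classical in
/-- the set of full vertices -/
noncomputable def fulls (G : SimpleGraph W) : Finset W := univ.filter (Full G)

theorem mem_fulls {G : SimpleGraph W} {v : W} : v ∈ fulls G ↔ Full G v := by
  classical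
  simp [fulls]

theorem fulls_mono {G G' : SimpleGraph W} (h : G ≤ G') : fulls G ⊆ fulls G' := fun v hv =>
  mem_fulls.2 ((mem_fulls.1 hv).mono h)

/-- the potential -/
noncomputable def pot (D : ℕ) (G : SimpleGraph W) : ℕ := ∑ v, min (dg G v) D + (fulls G).card

theorem pot_mono (D : ℕ) {G G' : SimpleGraph W} (h : G ≤ G') : pot D G ≤ pot D G' :=
  Nat.add_le_add (sum_le_sum fun v _ => min_le_min_right _ (dg_mono h v))
    (card_le_card (fulls_mono h))

theorem pot_le (D : ℕ) (G : SimpleGraph W) : pot D G ≤ Fintype.card W * (D + 1) := by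
  unfold pot
  have h1 : ∑ v : W, min (dg G v) D ≤ ∑ _v : W, D := sum_le_sum fun _ _ => min_le_right _ _
  have h2 : (fulls G).card ≤ Fintype.card W := card_le_univ _
  rw [sum_const, card_univ, smul_eq_mul] at h1
  rw [mul_add, mul_one]
  omega

theorem dg_lt {G G' : SimpleGraph W} (h : G ≤ G') {a b : W} (h1 : G'.Adj a b) (h0 : ¬ G.Adj a b) :
    dg G a < dg G' a := by
  classical
  unfold dg
  refine card_lt_card (ssubset_iff_of_subset (fun w hw => ?_) |>.2 ⟨b, ?_, ?_⟩)
  · simp only [mem_filter, mem_univ, true_and] at hw ⊢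
    exact h hw
  · simpa using h1
  · simpa using h0

theorem pot_lt_of_dg (D : ℕ) {G G' : SimpleGraph W} (h : G ≤ G') {a b : W} (h1 : G'.Adj a b)
    (h0 : ¬ G.Adj a b) (hD : dg G a < D) : pot D G < pot D G' := by
  unfold pot
  refine Nat.add_lt_add_of_lt_of_le (sum_lt_sum (fun v _ => min_le_min_right _ (dg_mono h v))
    ⟨a, mem_univ _, ?_⟩) (card_le_card (fulls_mono h))
  have := dg_lt h h1 h0
  omega

theorem fulls_lt {G G' : SimpleGraph W} (h : G ≤ G') {a : W} (h1 : Full G' a)
    (h0 : ¬ Full G a) : (fulls G).card < (fulls G').card :=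
  card_lt_card (ssubset_iff_of_subset (fulls_mono h) |>.2
    ⟨a, mem_fulls.2 h1, fun h' => h0 (mem_fulls.1 h')⟩)

theorem pot_lt_of_full (D : ℕ) {G G' : SimpleGraph W} (h : G ≤ G') {a : W} (h1 : Full G' a)
    (h0 : ¬ Full G a) : pot D G < pot D G' :=
  Nat.add_lt_add_of_le_of_lt (sum_le_sum fun v _ => min_le_min_right _ (dg_mono h v))
    (fulls_lt h h1 h0)

theorem pot_lt (h : Str k m H u K) (hm : 1 ≤ m) {G : SimpleGraph W} (hne : step H G ≠ G) :
    pot (k + m - 2) G < pot (k + m - 2) (step H (step H G)) := by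
  obtain ⟨a, b, h1, h0⟩ := exists_new hne
  have l1 : G ≤ step H G := le_step _ _
  have l2 : step H G ≤ step H (step H G) := le_step _ _
  by_cases ha : dg G a < k + m - 2
  · exact (pot_lt_of_dg _ l1 h1 h0 ha).trans_le (pot_mono _ l2)
  have na : ¬ Full G a := fun h' => h0 (h' b h1.ne')
  have nb : ¬ Full G b := fun h' => h0 (h' a h1.ne).symm
  rcases new_edge h h1 h0 with ⟨Q, hQ, haQ, hbQ, hcl, -⟩ | ⟨Q, hQ, hcl, c, hc, hcQ, hdeg⟩
  · refine pot_lt_of_full _ (l1.trans l2) (full_next h hm hQ (cl_of_new h1 hcl) haQ ?_) na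
    have := dg_mono l1 a
    omega
  · have hf := full_next h hm hQ hcl hcQ hdeg
    have nc : ¬ Full G c := by rcases hc with rfl | rfl <;> assumption
    exact (pot_lt_of_full _ l1 hf nc).trans_le (pot_mono _ l2)

theorem tau_le_linear (h : Str k m H u K) (hm : 1 ≤ m) (G : SimpleGraph W) :
    tau H G ≤ 2 * ((k + m - 1) * Fintype.card W) + 1 := by
  by_contra hcon
  push Not at hcon
  have hrun : ∀ t, t ≤ 2 * ((k + m - 1) * Fintype.card W) + 1 →
      step H ((step H)^[t] G) ≠ (step H)^[t] G := by
    intro t ht he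
    have := tau_le (H := H) (G := G) (t := t) (by rw [Function.iterate_succ_apply', he])
    omega
  have key : ∀ j, j ≤ (k + m - 1) * Fintype.card W + 1 →
      j ≤ pot (k + m - 2) ((step H)^[2 * j] G) := by
    intro j
    induction j with
    | zero => intro _; exact Nat.zero_le _
    | succ j ih =>
      intro hj
      have h1 := ih (by omega)
      have h2 := pot_lt h hm (hrun (2 * j) (by omega))
      rw [← Function.iterate_succ_apply' (step H), ← Function.iterate_succ_apply' (step H)] at h2
      have h3 : 2 * (j + 1) = (2 * j).succ.succ := by omega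
      rw [h3]
      omega
  have h1 := key _ le_rfl
  have h2 := pot_le (k + m - 2) ((step H)^[2 * ((k + m - 1) * Fintype.card W + 1)] G)
  have h3 : 1 ≤ k := by rw [← h.2.1]; exact card_pos.2 ⟨u, h.1⟩
  have h4 : k + m - 2 + 1 = k + m - 1 := by omega
  rw [h4, mul_comm (Fintype.card W)] at h2
  omega

theorem M_le_linear (h : Str k m H u K) (hm : 1 ≤ m) (n : ℕ) :
    M H n ≤ 2 * (k + m - 1) * n + 1 := by
  refine ciSup_le fun G => (tau_le_linear h hm G).trans ?_
  rw [Fintype.card_fin, mul_assoc]

end Pool.Agent.H6.GB
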